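import Pool.Agent.Run7.h214.D6.N2D

set_option autoImplicit false

/-!
# Parts of a certificate, checked by the kernel
-/

namespace Pool.Agent.Run7.h214.D6

open Pool.Agent.TH428.RM

/-- boxes -/
def g2q01_5 : List QB := [⟨20, 1572864, 1572864, 524288⟩, ⟨21, 3145728, 1048576, 1048576⟩]

set_option maxRecDepth 100000 in
theorem g2q01_5_ok : g2q01_5.all (fun b => b.chk (mkq nc2 false true)) = true := by
  decide +kernel

/-- boxes -/
def g2q01_6 : List QB := [⟨20, 524288, 1572864, 524288⟩, ⟨17, 196608, 65536, 65536⟩, ⟨18, 131072, 393216, 131072⟩]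

set_option maxRecDepth 100000 in
theorem g2q01_6_ok : g2q01_6.all (fun b => b.chk (mkq nc2 false true)) = true := by
  decide +kernel

/-- boxes -/
def g2q01_7 : List QB := [⟨21, 3145728, 3145728, 1048576⟩, ⟨16, 98304, 32768, 32768⟩, ⟨19, 786432, 786432, 262144⟩, ⟨19, 1835008, 262144, 262144⟩, ⟨18, 917504, 393216, 131072⟩]

set_option maxRecDepth 100000 in
theorem g2q01_7_ok : g2q01_7.all (fun b => b.chk (mkq nc2 false true)) = true := by
  decide +kernel

/-- boxes -/
def g2q01_8 : List QB := [⟨19, 1310720, 786432, 262144⟩, ⟨17, 65536, 196608, 65536⟩, ⟨22, 6291456, 6291456, 2097152⟩, ⟨16, 32768, 98304, 32768⟩, ⟨18, 655360, 393216, 131072⟩, ⟨17, 196608, 196608, 65536⟩, ⟨23, 12582912, 4194304, 4194304⟩, ⟨24, 8388608, 25165824, 8388608⟩, ⟨24, 25165824, 8388608, 8388608⟩]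

set_option maxRecDepth 100000 in
theorem g2q01_8_ok : g2q01_8.all (fun b => b.chk (mkq nc2 false true)) = true := by
  decide +kernel

/-- boxes -/
def g2q10_0 : List QB := [⟨15, 16384, 16384, 16384⟩, ⟨19, 1835008, 786432, 262144⟩]

set_option maxRecDepth 100000 in
theorem g2q10_0_ok : g2q10_0.all (fun b => b.chk (mkq nc2 true false)) = true := by
  decide +kernel

/-- boxes -/
def g2q10_1 : List QB := [⟨19, 262144, 786432, 262144⟩, ⟨17, 65536, 196608, 65536⟩]

set_option maxRecDepth 100000 in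
theorem g2q10_1_ok : g2q10_1.all (fun b => b.chk (mkq nc2 true false)) = true := by
  decide +kernel

/-- boxes -/
def g2q10_2 : List QB := [⟨18, 1441792, 393216, 131072⟩, ⟨18, 131072, 393216, 131072⟩]

set_option maxRecDepth 100000 in
theorem g2q10_2_ok : g2q10_2.all (fun b => b.chk (mkq nc2 true false)) = true := by
  decide +kernel

end Pool.Agent.Run7.h214.D6
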