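import Pool.Agent.Run7.h214.D6.N2P0
import Pool.Agent.Run7.h214.D6.N2P1
import Pool.Agent.Run7.h214.D6.N2P2
import Pool.Agent.Run7.h214.D6.N2P3

set_option autoImplicit false

/-!
# A certificate, checked by the kernel
-/

namespace Pool.Agent.Run7.h214.D6

open Pool.Agent.TH428.RM

/-- all boxes of the quadrant -/
def b2q00 : List QB := g2q00_0 ++ (g2q00_1)

lemma b2q00_ok : ∀ b ∈ b2q00, b.chk (mkq nc2 false false) = true := by
  intro b hb
  unfold b2q00 at hb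
  simp only [List.mem_append] at hb
  rcases hb with hb | hb
  exacts [List.all_eq_true.mp g2q00_0_ok b hb, List.all_eq_true.mp g2q00_1_ok b hb]

set_option maxRecDepth 100000 in
lemma b2q00_top : qchkB (mkq nc2 false false) b2q00 25 (nc2.R * nc2.D) (nc2.R * nc2.D) (nc2.R * nc2.D) = true := by
  decide +kernel

theorem nc2_q00 : qchk (mkq nc2 false false) 25 (nc2.R * nc2.D) (nc2.R * nc2.D) (nc2.R * nc2.D) = true :=
  qchkB_sound b2q00_ok _ _ _ _ b2q00_top

/-- all boxes of the quadrant -/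
def b2q01 : List QB := g2q01_0 ++ (g2q01_1 ++ (g2q01_2 ++ (g2q01_3 ++ (g2q01_4 ++ (g2q01_5 ++ (g2q01_6 ++ (g2q01_7 ++ (g2q01_8))))))))

lemma b2q01_ok : ∀ b ∈ b2q01, b.chk (mkq nc2 false true) = true := by
  intro b hb
  unfold b2q01 at hb
  simp only [List.mem_append] at hb
  rcases hb with hb | hb | hb | hb | hb | hb | hb | hb | hb
  exacts [List.all_eq_true.mp g2q01_0_ok b hb, List.all_eq_true.mp g2q01_1_ok b hb, List.all_eq_true.mp g2q01_2_ok b hb, List.all_eq_true.mp g2q01_3_ok b hb, List.all_eq_true.mp g2q01_4_ok b hb, List.all_eq_true.mp g2q01_5_ok b hb, List.all_eq_true.mp g2q01_6_ok b hb, List.all_eq_true.mp g2q01_7_ok b hb, List.all_eq_true.mp g2q01_8_ok b hb]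

set_option maxRecDepth 100000 in
lemma b2q01_top : qchkB (mkq nc2 false true) b2q01 25 (nc2.R * nc2.D) (nc2.R * nc2.D) (nc2.R * nc2.D) = true := by
  decide +kernel

theorem nc2_q01 : qchk (mkq nc2 false true) 25 (nc2.R * nc2.D) (nc2.R * nc2.D) (nc2.R * nc2.D) = true :=
  qchkB_sound b2q01_ok _ _ _ _ b2q01_top

/-- all boxes of the quadrant -/
def b2q10 : List QB := g2q10_0 ++ (g2q10_1 ++ (g2q10_2 ++ (g2q10_3 ++ (g2q10_4 ++ (g2q10_5 ++ (g2q10_6 ++ (g2q10_7 ++ (g2q10_8))))))))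

lemma b2q10_ok : ∀ b ∈ b2q10, b.chk (mkq nc2 true false) = true := by
  intro b hb
  unfold b2q10 at hb
  simp only [List.mem_append] at hb
  rcases hb with hb | hb | hb | hb | hb | hb | hb | hb | hb
  exacts [List.all_eq_true.mp g2q10_0_ok b hb, List.all_eq_true.mp g2q10_1_ok b hb, List.all_eq_true.mp g2q10_2_ok b hb, List.all_eq_true.mp g2q10_3_ok b hb, List.all_eq_true.mp g2q10_4_ok b hb, List.all_eq_true.mp g2q10_5_ok b hb, List.all_eq_true.mp g2q10_6_ok b hb, List.all_eq_true.mp g2q10_7_ok b hb, List.all_eq_true.mp g2q10_8_ok b hb]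

set_option maxRecDepth 100000 in
lemma b2q10_top : qchkB (mkq nc2 true false) b2q10 25 (nc2.R * nc2.D) (nc2.R * nc2.D) (nc2.R * nc2.D) = true := by
  decide +kernel

theorem nc2_q10 : qchk (mkq nc2 true false) 25 (nc2.R * nc2.D) (nc2.R * nc2.D) (nc2.R * nc2.D) = true :=
  qchkB_sound b2q10_ok _ _ _ _ b2q10_top

/-- all boxes of the quadrant -/
def b2q11 : List QB := g2q11_0 ++ (g2q11_1)

lemma b2q11_ok : ∀ b ∈ b2q11, b.chk (mkq nc2 true true) = true := by
  intro b hb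
  unfold b2q11 at hb
  simp only [List.mem_append] at hb
  rcases hb with hb | hb
  exacts [List.all_eq_true.mp g2q11_0_ok b hb, List.all_eq_true.mp g2q11_1_ok b hb]

set_option maxRecDepth 100000 in
lemma b2q11_top : qchkB (mkq nc2 true true) b2q11 25 (nc2.R * nc2.D) (nc2.R * nc2.D) (nc2.R * nc2.D) = true := by
  decide +kernel

theorem nc2_q11 : qchk (mkq nc2 true true) 25 (nc2.R * nc2.D) (nc2.R * nc2.D) (nc2.R * nc2.D) = true :=
  qchkB_sound b2q11_ok _ _ _ _ b2q11_top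

theorem nc2_cert : Cert2 ((nc2.T1 : ℝ) / nc2.M) ((nc2.T2 : ℝ) / nc2.M) ((nc2.wR : ℝ) / nc2.wd)
    ((nc2.wB : ℝ) / nc2.wd) ((nc2.g0 : ℝ) / nc2.K) ((nc2.a1 : ℝ) / nc2.K) ((nc2.a2 : ℝ) / nc2.K) nc2.rP
    ((nc2.dl : ℝ) / nc2.K) :=
  cert_of nc2_ok nc2_q00 nc2_q01 nc2_q10 nc2_q11

end Pool.Agent.Run7.h214.D6
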