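import Pool.Agent.Run7.h214.D6.N3D

set_option autoImplicit false

/-!
# Parts of a certificate, checked by the kernel
-/

namespace Pool.Agent.Run7.h214.D6

open Pool.Agent.TH428.RM

/-- boxes -/
def g3q10_0 : List QB := [⟨14, 8192, 8192, 8192⟩, ⟨20, 1572864, 524288, 524288⟩, ⟨22, 2097152, 6291456, 2097152⟩]

set_option maxRecDepth 100000 in
theorem g3q10_0_ok : g3q10_0.all (fun b => b.chk (mkq nc3 true false)) = true := by
  decide +kernel

/-- boxes -/
def g3q10_1 : List QB := [⟨19, 786432, 1835008, 262144⟩, ⟨19, 786432, 262144, 262144⟩]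

set_option maxRecDepth 100000 in
theorem g3q10_1_ok : g3q10_1.all (fun b => b.chk (mkq nc3 true false)) = true := by
  decide +kernel

/-- boxes -/
def g3q10_2 : List QB := [⟨14, 24576, 8192, 8192⟩, ⟨20, 1572864, 1572864, 524288⟩, ⟨15, 49152, 16384, 16384⟩]

set_option maxRecDepth 100000 in
theorem g3q10_2_ok : g3q10_2.all (fun b => b.chk (mkq nc3 true false)) = true := by
  decide +kernel

/-- boxes -/
def g3q10_3 : List QB := [⟨19, 786432, 1310720, 262144⟩, ⟨21, 1048576, 3145728, 1048576⟩, ⟨18, 393216, 131072, 131072⟩, ⟨19, 262144, 786432, 262144⟩]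

set_option maxRecDepth 100000 in
theorem g3q10_3_ok : g3q10_3.all (fun b => b.chk (mkq nc3 true false)) = true := by
  decide +kernel

/-- boxes -/
def g3q10_4 : List QB := [⟨19, 786432, 786432, 262144⟩, ⟨21, 3145728, 1048576, 1048576⟩, ⟨21, 3145728, 3145728, 1048576⟩, ⟨17, 196608, 65536, 65536⟩, ⟨16, 98304, 32768, 32768⟩, ⟨18, 131072, 393216, 131072⟩, ⟨18, 393216, 393216, 131072⟩, ⟨19, 262144, 1310720, 262144⟩, ⟨17, 65536, 196608, 65536⟩, ⟨22, 6291456, 2097152, 2097152⟩, ⟨23, 12582912, 4194304, 4194304⟩, ⟨24, 25165824, 8388608, 8388608⟩, ⟨24, 8388608, 25165824, 8388608⟩, ⟨23, 4194304, 12582912, 4194304⟩, ⟨22, 6291456, 6291456, 2097152⟩]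

set_option maxRecDepth 100000 in
theorem g3q10_4_ok : g3q10_4.all (fun b => b.chk (mkq nc3 true false)) = true := by
  decide +kernel

/-- boxes -/
def g3q11_0 : List QB := [⟨15, 16384, 16384, 16384⟩, ⟨17, 65536, 196608, 65536⟩, ⟨24, 8388608, 25165824, 8388608⟩]

set_option maxRecDepth 100000 in
theorem g3q11_0_ok : g3q11_0.all (fun b => b.chk (mkq nc3 true true)) = true := by
  decide +kernel

/-- boxes -/
def g3q11_1 : List QB := [⟨16, 32768, 98304, 32768⟩, ⟨15, 16384, 49152, 16384⟩, ⟨18, 131072, 393216, 131072⟩, ⟨16, 98304, 32768, 32768⟩, ⟨19, 262144, 786432, 262144⟩, ⟨15, 49152, 16384, 16384⟩, ⟨23, 4194304, 12582912, 4194304⟩]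

set_option maxRecDepth 100000 in
theorem g3q11_1_ok : g3q11_1.all (fun b => b.chk (mkq nc3 true true)) = true := by
  decide +kernel

end Pool.Agent.Run7.h214.D6
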