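import Pool.Agent.Run7.h214.D6.N3D

set_option autoImplicit false

/-!
# Parts of a certificate, checked by the kernel
-/

namespace Pool.Agent.Run7.h214.D6

open Pool.Agent.TH428.RM

/-- boxes -/
def g3q11_2 : List QB := [⟨17, 196608, 65536, 65536⟩, ⟨20, 524288, 1572864, 524288⟩, ⟨19, 786432, 262144, 262144⟩, ⟨18, 393216, 131072, 131072⟩, ⟨20, 1572864, 524288, 524288⟩, ⟨24, 25165824, 8388608, 8388608⟩, ⟨21, 1048576, 3145728, 1048576⟩, ⟨21, 3145728, 1048576, 1048576⟩, ⟨23, 12582912, 4194304, 4194304⟩, ⟨22, 2097152, 6291456, 2097152⟩, ⟨22, 6291456, 2097152, 2097152⟩]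

set_option maxRecDepth 100000 in
theorem g3q11_2_ok : g3q11_2.all (fun b => b.chk (mkq nc3 true true)) = true := by
  decide +kernel

end Pool.Agent.Run7.h214.D6
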