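import Pool.Agent.Run7.h214.D6.N3P0
import Pool.Agent.Run7.h214.D6.N3P1
import Pool.Agent.Run7.h214.D6.N3P2

set_option autoImplicit false

/-!
# A certificate, checked by the kernel
-/

namespace Pool.Agent.Run7.h214.D6

open Pool.Agent.TH428.RM

/-- all boxes of the quadrant -/
def b3q00 : List QB := g3q00_0

lemma b3q00_ok : ∀ b ∈ b3q00, b.chk (mkq nc3 false false) = true := by
  intro b hb
  unfold b3q00 at hb
  exact List.all_eq_true.mp g3q00_0_ok b hb

set_option maxRecDepth 100000 in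
lemma b3q00_top : qchkB (mkq nc3 false false) b3q00 25 (nc3.R * nc3.D) (nc3.R * nc3.D) (nc3.R * nc3.D) = true := by
  decide +kernel

theorem nc3_q00 : qchk (mkq nc3 false false) 25 (nc3.R * nc3.D) (nc3.R * nc3.D) (nc3.R * nc3.D) = true :=
  qchkB_sound b3q00_ok _ _ _ _ b3q00_top

/-- all boxes of the quadrant -/
def b3q01 : List QB := g3q01_0 ++ (g3q01_1 ++ (g3q01_2 ++ (g3q01_3 ++ (g3q01_4 ++ (g3q01_5)))))

lemma b3q01_ok : ∀ b ∈ b3q01, b.chk (mkq nc3 false true) = true := by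
  intro b hb
  unfold b3q01 at hb
  simp only [List.mem_append] at hb
  rcases hb with hb | hb | hb | hb | hb | hb
  exacts [List.all_eq_true.mp g3q01_0_ok b hb, List.all_eq_true.mp g3q01_1_ok b hb, List.all_eq_true.mp g3q01_2_ok b hb, List.all_eq_true.mp g3q01_3_ok b hb, List.all_eq_true.mp g3q01_4_ok b hb, List.all_eq_true.mp g3q01_5_ok b hb]

set_option maxRecDepth 100000 in
lemma b3q01_top : qchkB (mkq nc3 false true) b3q01 25 (nc3.R * nc3.D) (nc3.R * nc3.D) (nc3.R * nc3.D) = true := by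
  decide +kernel

theorem nc3_q01 : qchk (mkq nc3 false true) 25 (nc3.R * nc3.D) (nc3.R * nc3.D) (nc3.R * nc3.D) = true :=
  qchkB_sound b3q01_ok _ _ _ _ b3q01_top

/-- all boxes of the quadrant -/
def b3q10 : List QB := g3q10_0 ++ (g3q10_1 ++ (g3q10_2 ++ (g3q10_3 ++ (g3q10_4))))

lemma b3q10_ok : ∀ b ∈ b3q10, b.chk (mkq nc3 true false) = true := by
  intro b hb
  unfold b3q10 at hb
  simp only [List.mem_append] at hb
  rcases hb with hb | hb | hb | hb | hb
  exacts [List.all_eq_true.mp g3q10_0_ok b hb, List.all_eq_true.mp g3q10_1_ok b hb, List.all_eq_true.mp g3q10_2_ok b hb, List.all_eq_true.mp g3q10_3_ok b hb, List.all_eq_true.mp g3q10_4_ok b hb]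

set_option maxRecDepth 100000 in
lemma b3q10_top : qchkB (mkq nc3 true false) b3q10 25 (nc3.R * nc3.D) (nc3.R * nc3.D) (nc3.R * nc3.D) = true := by
  decide +kernel

theorem nc3_q10 : qchk (mkq nc3 true false) 25 (nc3.R * nc3.D) (nc3.R * nc3.D) (nc3.R * nc3.D) = true :=
  qchkB_sound b3q10_ok _ _ _ _ b3q10_top

/-- all boxes of the quadrant -/
def b3q11 : List QB := g3q11_0 ++ (g3q11_1 ++ (g3q11_2))

lemma b3q11_ok : ∀ b ∈ b3q11, b.chk (mkq nc3 true true) = true := by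
  intro b hb
  unfold b3q11 at hb
  simp only [List.mem_append] at hb
  rcases hb with hb | hb | hb
  exacts [List.all_eq_true.mp g3q11_0_ok b hb, List.all_eq_true.mp g3q11_1_ok b hb, List.all_eq_true.mp g3q11_2_ok b hb]

set_option maxRecDepth 100000 in
lemma b3q11_top : qchkB (mkq nc3 true true) b3q11 25 (nc3.R * nc3.D) (nc3.R * nc3.D) (nc3.R * nc3.D) = true := by
  decide +kernel

theorem nc3_q11 : qchk (mkq nc3 true true) 25 (nc3.R * nc3.D) (nc3.R * nc3.D) (nc3.R * nc3.D) = true :=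
  qchkB_sound b3q11_ok _ _ _ _ b3q11_top

theorem nc3_cert : Cert2 ((nc3.T1 : ℝ) / nc3.M) ((nc3.T2 : ℝ) / nc3.M) ((nc3.wR : ℝ) / nc3.wd)
    ((nc3.wB : ℝ) / nc3.wd) ((nc3.g0 : ℝ) / nc3.K) ((nc3.a1 : ℝ) / nc3.K) ((nc3.a2 : ℝ) / nc3.K) nc3.rP
    ((nc3.dl : ℝ) / nc3.K) :=
  cert_of nc3_ok nc3_q00 nc3_q01 nc3_q10 nc3_q11

end Pool.Agent.Run7.h214.D6
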