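import Pool.Agent.Run7.h214.D6.N4D

set_option autoImplicit false

/-!
# Parts of a certificate, checked by the kernel
-/

namespace Pool.Agent.Run7.h214.D6

open Pool.Agent.TH428.RM

/-- boxes -/
def g4q01_6 : List QB := [⟨19, 262144, 1835008, 262144⟩, ⟨17, 196608, 1245184, 65536⟩, ⟨22, 6291456, 2097152, 2097152⟩, ⟨17, 1638400, 1114112, 65536⟩, ⟨18, 1966080, 1441792, 131072⟩, ⟨18, 393216, 393216, 131072⟩, ⟨22, 2097152, 6291456, 2097152⟩, ⟨23, 4194304, 12582912, 4194304⟩, ⟨24, 8388608, 25165824, 8388608⟩, ⟨17, 65536, 1245184, 65536⟩, ⟨17, 196608, 65536, 65536⟩, ⟨24, 25165824, 8388608, 8388608⟩, ⟨22, 6291456, 6291456, 2097152⟩, ⟨23, 12582912, 4194304, 4194304⟩]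

set_option maxRecDepth 100000 in
theorem g4q01_6_ok : g4q01_6.all (fun b => b.chk (mkq nc4 false true)) = true := by
  decide +kernel

/-- boxes -/
def g4q10_0 : List QB := [⟨18, 1179648, 131072, 131072⟩, ⟨18, 1441792, 131072, 131072⟩]

set_option maxRecDepth 100000 in
theorem g4q10_0_ok : g4q10_0.all (fun b => b.chk (mkq nc4 true false)) = true := by
  decide +kernel

/-- boxes -/
def g4q10_1 : List QB := [⟨14, 24576, 8192, 8192⟩, ⟨19, 1310720, 1310720, 262144⟩]

set_option maxRecDepth 100000 in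
theorem g4q10_1_ok : g4q10_1.all (fun b => b.chk (mkq nc4 true false)) = true := by
  decide +kernel

/-- boxes -/
def g4q10_2 : List QB := [⟨14, 8192, 8192, 8192⟩, ⟨21, 1048576, 3145728, 1048576⟩]

set_option maxRecDepth 100000 in
theorem g4q10_2_ok : g4q10_2.all (fun b => b.chk (mkq nc4 true false)) = true := by
  decide +kernel

/-- boxes -/
def g4q10_3 : List QB := [⟨16, 1081344, 1802240, 32768⟩, ⟨16, 1146880, 1802240, 32768⟩, ⟨16, 1081344, 1736704, 32768⟩]

set_option maxRecDepth 100000 in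
theorem g4q10_3_ok : g4q10_3.all (fun b => b.chk (mkq nc4 true false)) = true := by
  decide +kernel

/-- boxes -/
def g4q10_4 : List QB := [⟨19, 786432, 262144, 262144⟩, ⟨18, 393216, 131072, 131072⟩, ⟨15, 49152, 16384, 16384⟩, ⟨21, 3145728, 1048576, 1048576⟩, ⟨18, 131072, 393216, 131072⟩]

set_option maxRecDepth 100000 in
theorem g4q10_4_ok : g4q10_4.all (fun b => b.chk (mkq nc4 true false)) = true := by
  decide +kernel

/-- boxes -/
def g4q10_5 : List QB := [⟨20, 524288, 1572864, 524288⟩, ⟨18, 1179648, 1966080, 131072⟩]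

set_option maxRecDepth 100000 in
theorem g4q10_5_ok : g4q10_5.all (fun b => b.chk (mkq nc4 true false)) = true := by
  decide +kernel

end Pool.Agent.Run7.h214.D6
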