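import Pool.Agent.Run7.h214.D6.N4P0
import Pool.Agent.Run7.h214.D6.N4P1
import Pool.Agent.Run7.h214.D6.N4P2

set_option autoImplicit false

/-!
# A certificate, checked by the kernel
-/

namespace Pool.Agent.Run7.h214.D6

open Pool.Agent.TH428.RM

/-- all boxes of the quadrant -/
def b4q00 : List QB := g4q00_0

lemma b4q00_ok : ∀ b ∈ b4q00, b.chk (mkq nc4 false false) = true := by
  intro b hb
  unfold b4q00 at hb
  exact List.all_eq_true.mp g4q00_0_ok b hb

set_option maxRecDepth 100000 in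
lemma b4q00_top : qchkB (mkq nc4 false false) b4q00 25 (nc4.R * nc4.D) (nc4.R * nc4.D) (nc4.R * nc4.D) = true := by
  decide +kernel

theorem nc4_q00 : qchk (mkq nc4 false false) 25 (nc4.R * nc4.D) (nc4.R * nc4.D) (nc4.R * nc4.D) = true :=
  qchkB_sound b4q00_ok _ _ _ _ b4q00_top

/-- all boxes of the quadrant -/
def b4q01 : List QB := g4q01_0 ++ (g4q01_1 ++ (g4q01_2 ++ (g4q01_3 ++ (g4q01_4 ++ (g4q01_5 ++ (g4q01_6))))))

lemma b4q01_ok : ∀ b ∈ b4q01, b.chk (mkq nc4 false true) = true := by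
  intro b hb
  unfold b4q01 at hb
  simp only [List.mem_append] at hb
  rcases hb with hb | hb | hb | hb | hb | hb | hb
  exacts [List.all_eq_true.mp g4q01_0_ok b hb, List.all_eq_true.mp g4q01_1_ok b hb, List.all_eq_true.mp g4q01_2_ok b hb, List.all_eq_true.mp g4q01_3_ok b hb, List.all_eq_true.mp g4q01_4_ok b hb, List.all_eq_true.mp g4q01_5_ok b hb, List.all_eq_true.mp g4q01_6_ok b hb]

set_option maxRecDepth 100000 in
lemma b4q01_top : qchkB (mkq nc4 false true) b4q01 25 (nc4.R * nc4.D) (nc4.R * nc4.D) (nc4.R * nc4.D) = true := by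
  decide +kernel

theorem nc4_q01 : qchk (mkq nc4 false true) 25 (nc4.R * nc4.D) (nc4.R * nc4.D) (nc4.R * nc4.D) = true :=
  qchkB_sound b4q01_ok _ _ _ _ b4q01_top

/-- all boxes of the quadrant -/
def b4q10 : List QB := g4q10_0 ++ (g4q10_1 ++ (g4q10_2 ++ (g4q10_3 ++ (g4q10_4 ++ (g4q10_5 ++ (g4q10_6))))))

lemma b4q10_ok : ∀ b ∈ b4q10, b.chk (mkq nc4 true false) = true := by
  intro b hb
  unfold b4q10 at hb
  simp only [List.mem_append] at hb
  rcases hb with hb | hb | hb | hb | hb | hb | hb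
  exacts [List.all_eq_true.mp g4q10_0_ok b hb, List.all_eq_true.mp g4q10_1_ok b hb, List.all_eq_true.mp g4q10_2_ok b hb, List.all_eq_true.mp g4q10_3_ok b hb, List.all_eq_true.mp g4q10_4_ok b hb, List.all_eq_true.mp g4q10_5_ok b hb, List.all_eq_true.mp g4q10_6_ok b hb]

set_option maxRecDepth 100000 in
lemma b4q10_top : qchkB (mkq nc4 true false) b4q10 25 (nc4.R * nc4.D) (nc4.R * nc4.D) (nc4.R * nc4.D) = true := by
  decide +kernel

theorem nc4_q10 : qchk (mkq nc4 true false) 25 (nc4.R * nc4.D) (nc4.R * nc4.D) (nc4.R * nc4.D) = true :=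
  qchkB_sound b4q10_ok _ _ _ _ b4q10_top

/-- all boxes of the quadrant -/
def b4q11 : List QB := g4q11_0 ++ (g4q11_1 ++ (g4q11_2 ++ (g4q11_3 ++ (g4q11_4))))

lemma b4q11_ok : ∀ b ∈ b4q11, b.chk (mkq nc4 true true) = true := by
  intro b hb
  unfold b4q11 at hb
  simp only [List.mem_append] at hb
  rcases hb with hb | hb | hb | hb | hb
  exacts [List.all_eq_true.mp g4q11_0_ok b hb, List.all_eq_true.mp g4q11_1_ok b hb, List.all_eq_true.mp g4q11_2_ok b hb, List.all_eq_true.mp g4q11_3_ok b hb, List.all_eq_true.mp g4q11_4_ok b hb]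

set_option maxRecDepth 100000 in
lemma b4q11_top : qchkB (mkq nc4 true true) b4q11 25 (nc4.R * nc4.D) (nc4.R * nc4.D) (nc4.R * nc4.D) = true := by
  decide +kernel

theorem nc4_q11 : qchk (mkq nc4 true true) 25 (nc4.R * nc4.D) (nc4.R * nc4.D) (nc4.R * nc4.D) = true :=
  qchkB_sound b4q11_ok _ _ _ _ b4q11_top

theorem nc4_cert : Cert2 ((nc4.T1 : ℝ) / nc4.M) ((nc4.T2 : ℝ) / nc4.M) ((nc4.wR : ℝ) / nc4.wd)
    ((nc4.wB : ℝ) / nc4.wd) ((nc4.g0 : ℝ) / nc4.K) ((nc4.a1 : ℝ) / nc4.K) ((nc4.a2 : ℝ) / nc4.K) nc4.rP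
    ((nc4.dl : ℝ) / nc4.K) :=
  cert_of nc4_ok nc4_q00 nc4_q01 nc4_q10 nc4_q11

end Pool.Agent.Run7.h214.D6
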