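import Pool.Agent.Run7.h214.D6.N5D

set_option autoImplicit false

/-!
# Parts of a certificate, checked by the kernel
-/

namespace Pool.Agent.Run7.h214.D6

open Pool.Agent.TH428.RM

/-- boxes -/
def g5q01_5 : List QB := [⟨17, 851968, 65536, 65536⟩, ⟨21, 3145728, 3145728, 1048576⟩]

set_option maxRecDepth 100000 in
theorem g5q01_5_ok : g5q01_5.all (fun b => b.chk (mkq nc5 false true)) = true := by
  decide +kernel

/-- boxes -/
def g5q01_6 : List QB := [⟨16, 753664, 98304, 32768⟩, ⟨18, 1179648, 655360, 131072⟩, ⟨16, 98304, 98304, 32768⟩]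

set_option maxRecDepth 100000 in
theorem g5q01_6_ok : g5q01_6.all (fun b => b.chk (mkq nc5 false true)) = true := by
  decide +kernel

/-- boxes -/
def g5q01_7 : List QB := [⟨21, 3145728, 1048576, 1048576⟩, ⟨19, 786432, 786432, 262144⟩]

set_option maxRecDepth 100000 in
theorem g5q01_7_ok : g5q01_7.all (fun b => b.chk (mkq nc5 false true)) = true := by
  decide +kernel

/-- boxes -/
def g5q01_8 : List QB := [⟨16, 622592, 98304, 32768⟩, ⟨17, 983040, 196608, 65536⟩]

set_option maxRecDepth 100000 in
theorem g5q01_8_ok : g5q01_8.all (fun b => b.chk (mkq nc5 false true)) = true := by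
  decide +kernel

/-- boxes -/
def g5q01_9 : List QB := [⟨17, 458752, 65536, 65536⟩, ⟨16, 98304, 32768, 32768⟩]

set_option maxRecDepth 100000 in
theorem g5q01_9_ok : g5q01_9.all (fun b => b.chk (mkq nc5 false true)) = true := by
  decide +kernel

/-- boxes -/
def g5q01_10 : List QB := [⟨17, 196608, 65536, 65536⟩, ⟨18, 655360, 393216, 131072⟩, ⟨15, 49152, 16384, 16384⟩]

set_option maxRecDepth 100000 in
theorem g5q01_10_ok : g5q01_10.all (fun b => b.chk (mkq nc5 false true)) = true := by
  decide +kernel

/-- boxes -/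
def g5q01_11 : List QB := [⟨17, 327680, 65536, 65536⟩, ⟨19, 262144, 1310720, 262144⟩]

set_option maxRecDepth 100000 in
theorem g5q01_11_ok : g5q01_11.all (fun b => b.chk (mkq nc5 false true)) = true := by
  decide +kernel

end Pool.Agent.Run7.h214.D6
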