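import Pool.Agent.Run7.h214.D6.N5D

set_option autoImplicit false

/-!
# Parts of a certificate, checked by the kernel
-/

namespace Pool.Agent.Run7.h214.D6

open Pool.Agent.TH428.RM

/-- boxes -/
def g5q10_3 : List QB := [⟨18, 1179648, 393216, 131072⟩, ⟨18, 393216, 131072, 131072⟩]

set_option maxRecDepth 100000 in
theorem g5q10_3_ok : g5q10_3.all (fun b => b.chk (mkq nc5 true false)) = true := by
  decide +kernel

/-- boxes -/
def g5q10_4 : List QB := [⟨18, 393216, 1441792, 131072⟩, ⟨21, 3145728, 1048576, 1048576⟩]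

set_option maxRecDepth 100000 in
theorem g5q10_4_ok : g5q10_4.all (fun b => b.chk (mkq nc5 true false)) = true := by
  decide +kernel

/-- boxes -/
def g5q10_5 : List QB := [⟨18, 131072, 917504, 131072⟩, ⟨18, 1441792, 393216, 131072⟩]

set_option maxRecDepth 100000 in
theorem g5q10_5_ok : g5q10_5.all (fun b => b.chk (mkq nc5 true false)) = true := by
  decide +kernel

/-- boxes -/
def g5q10_6 : List QB := [⟨21, 3145728, 3145728, 1048576⟩, ⟨19, 1835008, 1835008, 262144⟩]

set_option maxRecDepth 100000 in
theorem g5q10_6_ok : g5q10_6.all (fun b => b.chk (mkq nc5 true false)) = true := by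
  decide +kernel

/-- boxes -/
def g5q10_7 : List QB := [⟨18, 393216, 1179648, 131072⟩, ⟨18, 131072, 655360, 131072⟩, ⟨23, 12582912, 4194304, 4194304⟩]

set_option maxRecDepth 100000 in
theorem g5q10_7_ok : g5q10_7.all (fun b => b.chk (mkq nc5 true false)) = true := by
  decide +kernel

/-- boxes -/
def g5q10_8 : List QB := [⟨19, 1310720, 1835008, 262144⟩, ⟨19, 1310720, 1310720, 262144⟩, ⟨22, 2097152, 6291456, 2097152⟩]

set_option maxRecDepth 100000 in
theorem g5q10_8_ok : g5q10_8.all (fun b => b.chk (mkq nc5 true false)) = true := by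
  decide +kernel

/-- boxes -/
def g5q10_9 : List QB := [⟨18, 131072, 1179648, 131072⟩, ⟨18, 131072, 393216, 131072⟩, ⟨18, 393216, 393216, 131072⟩]

set_option maxRecDepth 100000 in
theorem g5q10_9_ok : g5q10_9.all (fun b => b.chk (mkq nc5 true false)) = true := by
  decide +kernel

end Pool.Agent.Run7.h214.D6
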