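import Pool.Agent.Run7.h214.D6.N5D

set_option autoImplicit false

/-!
# Parts of a certificate, checked by the kernel
-/

namespace Pool.Agent.Run7.h214.D6

open Pool.Agent.TH428.RM

/-- boxes -/
def g5q10_10 : List QB := [⟨19, 786432, 786432, 262144⟩, ⟨18, 1179648, 131072, 131072⟩, ⟨19, 786432, 1310720, 262144⟩, ⟨19, 1835008, 262144, 262144⟩, ⟨18, 393216, 655360, 131072⟩]

set_option maxRecDepth 100000 in
theorem g5q10_10_ok : g5q10_10.all (fun b => b.chk (mkq nc5 true false)) = true := by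
  decide +kernel

/-- boxes -/
def g5q10_11 : List QB := [⟨17, 196608, 65536, 65536⟩, ⟨16, 32768, 98304, 32768⟩, ⟨19, 1310720, 786432, 262144⟩, ⟨19, 1835008, 786432, 262144⟩, ⟨16, 98304, 32768, 32768⟩, ⟨22, 6291456, 2097152, 2097152⟩, ⟨22, 6291456, 6291456, 2097152⟩, ⟨15, 49152, 16384, 16384⟩]

set_option maxRecDepth 100000 in
theorem g5q10_11_ok : g5q10_11.all (fun b => b.chk (mkq nc5 true false)) = true := by
  decide +kernel

/-- boxes -/
def g5q10_12 : List QB := [⟨19, 1835008, 1310720, 262144⟩, ⟨19, 786432, 1835008, 262144⟩, ⟨17, 196608, 196608, 65536⟩, ⟨18, 393216, 917504, 131072⟩, ⟨16, 98304, 98304, 32768⟩, ⟨24, 25165824, 8388608, 8388608⟩, ⟨18, 1441792, 131072, 131072⟩, ⟨23, 4194304, 12582912, 4194304⟩, ⟨24, 8388608, 25165824, 8388608⟩]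

set_option maxRecDepth 100000 in
theorem g5q10_12_ok : g5q10_12.all (fun b => b.chk (mkq nc5 true false)) = true := by
  decide +kernel

/-- boxes -/
def g5q11_0 : List QB := [⟨18, 131072, 131072, 131072⟩, ⟨18, 393216, 131072, 131072⟩]

set_option maxRecDepth 100000 in
theorem g5q11_0_ok : g5q11_0.all (fun b => b.chk (mkq nc5 true true)) = true := by
  decide +kernel

/-- boxes -/
def g5q11_1 : List QB := [⟨19, 786432, 262144, 262144⟩, ⟨20, 1572864, 524288, 524288⟩, ⟨21, 3145728, 1048576, 1048576⟩, ⟨24, 8388608, 25165824, 8388608⟩, ⟨24, 25165824, 8388608, 8388608⟩, ⟨18, 131072, 393216, 131072⟩, ⟨22, 6291456, 2097152, 2097152⟩, ⟨23, 12582912, 4194304, 4194304⟩]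

set_option maxRecDepth 100000 in
theorem g5q11_1_ok : g5q11_1.all (fun b => b.chk (mkq nc5 true true)) = true := by
  decide +kernel

end Pool.Agent.Run7.h214.D6
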