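import Pool.Agent.Run7.h214.D6.N5P0
import Pool.Agent.Run7.h214.D6.N5P1
import Pool.Agent.Run7.h214.D6.N5P2
import Pool.Agent.Run7.h214.D6.N5P3
import Pool.Agent.Run7.h214.D6.N5P4

set_option autoImplicit false

/-!
# A certificate, checked by the kernel
-/

namespace Pool.Agent.Run7.h214.D6

open Pool.Agent.TH428.RM

/-- all boxes of the quadrant -/
def b5q00 : List QB := g5q00_0 ++ (g5q00_1)

lemma b5q00_ok : ∀ b ∈ b5q00, b.chk (mkq nc5 false false) = true := by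
  intro b hb
  unfold b5q00 at hb
  simp only [List.mem_append] at hb
  rcases hb with hb | hb
  exacts [List.all_eq_true.mp g5q00_0_ok b hb, List.all_eq_true.mp g5q00_1_ok b hb]

set_option maxRecDepth 100000 in
lemma b5q00_top : qchkB (mkq nc5 false false) b5q00 25 (nc5.R * nc5.D) (nc5.R * nc5.D) (nc5.R * nc5.D) = true := by
  decide +kernel

theorem nc5_q00 : qchk (mkq nc5 false false) 25 (nc5.R * nc5.D) (nc5.R * nc5.D) (nc5.R * nc5.D) = true :=
  qchkB_sound b5q00_ok _ _ _ _ b5q00_top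

/-- all boxes of the quadrant -/
def b5q01 : List QB := g5q01_0 ++ (g5q01_1 ++ (g5q01_2 ++ (g5q01_3 ++ (g5q01_4 ++ (g5q01_5 ++ (g5q01_6 ++ (g5q01_7 ++ (g5q01_8 ++ (g5q01_9 ++ (g5q01_10 ++ (g5q01_11 ++ (g5q01_12 ++ (g5q01_13 ++ (g5q01_14 ++ (g5q01_15)))))))))))))))

lemma b5q01_ok : ∀ b ∈ b5q01, b.chk (mkq nc5 false true) = true := by
  intro b hb
  unfold b5q01 at hb
  simp only [List.mem_append] at hb
  rcases hb with hb | hb | hb | hb | hb | hb | hb | hb | hb | hb | hb | hb | hb | hb | hb | hb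
  exacts [List.all_eq_true.mp g5q01_0_ok b hb, List.all_eq_true.mp g5q01_1_ok b hb, List.all_eq_true.mp g5q01_2_ok b hb, List.all_eq_true.mp g5q01_3_ok b hb, List.all_eq_true.mp g5q01_4_ok b hb, List.all_eq_true.mp g5q01_5_ok b hb, List.all_eq_true.mp g5q01_6_ok b hb, List.all_eq_true.mp g5q01_7_ok b hb, List.all_eq_true.mp g5q01_8_ok b hb, List.all_eq_true.mp g5q01_9_ok b hb, List.all_eq_true.mp g5q01_10_ok b hb, List.all_eq_true.mp g5q01_11_ok b hb, List.all_eq_true.mp g5q01_12_ok b hb, List.all_eq_true.mp g5q01_13_ok b hb, List.all_eq_true.mp g5q01_14_ok b hb, List.all_eq_true.mp g5q01_15_ok b hb]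

set_option maxRecDepth 100000 in
lemma b5q01_top : qchkB (mkq nc5 false true) b5q01 25 (nc5.R * nc5.D) (nc5.R * nc5.D) (nc5.R * nc5.D) = true := by
  decide +kernel

theorem nc5_q01 : qchk (mkq nc5 false true) 25 (nc5.R * nc5.D) (nc5.R * nc5.D) (nc5.R * nc5.D) = true :=
  qchkB_sound b5q01_ok _ _ _ _ b5q01_top

/-- all boxes of the quadrant -/
def b5q10 : List QB := g5q10_0 ++ (g5q10_1 ++ (g5q10_2 ++ (g5q10_3 ++ (g5q10_4 ++ (g5q10_5 ++ (g5q10_6 ++ (g5q10_7 ++ (g5q10_8 ++ (g5q10_9 ++ (g5q10_10 ++ (g5q10_11 ++ (g5q10_12))))))))))))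

lemma b5q10_ok : ∀ b ∈ b5q10, b.chk (mkq nc5 true false) = true := by
  intro b hb
  unfold b5q10 at hb
  simp only [List.mem_append] at hb
  rcases hb with hb | hb | hb | hb | hb | hb | hb | hb | hb | hb | hb | hb | hb
  exacts [List.all_eq_true.mp g5q10_0_ok b hb, List.all_eq_true.mp g5q10_1_ok b hb, List.all_eq_true.mp g5q10_2_ok b hb, List.all_eq_true.mp g5q10_3_ok b hb, List.all_eq_true.mp g5q10_4_ok b hb, List.all_eq_true.mp g5q10_5_ok b hb, List.all_eq_true.mp g5q10_6_ok b hb, List.all_eq_true.mp g5q10_7_ok b hb, List.all_eq_true.mp g5q10_8_ok b hb, List.all_eq_true.mp g5q10_9_ok b hb, List.all_eq_true.mp g5q10_10_ok b hb, List.all_eq_true.mp g5q10_11_ok b hb, List.all_eq_true.mp g5q10_12_ok b hb]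

set_option maxRecDepth 100000 in
lemma b5q10_top : qchkB (mkq nc5 true false) b5q10 25 (nc5.R * nc5.D) (nc5.R * nc5.D) (nc5.R * nc5.D) = true := by
  decide +kernel

theorem nc5_q10 : qchk (mkq nc5 true false) 25 (nc5.R * nc5.D) (nc5.R * nc5.D) (nc5.R * nc5.D) = true :=
  qchkB_sound b5q10_ok _ _ _ _ b5q10_top

/-- all boxes of the quadrant -/
def b5q11 : List QB := g5q11_0 ++ (g5q11_1)

lemma b5q11_ok : ∀ b ∈ b5q11, b.chk (mkq nc5 true true) = true := by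
  intro b hb
  unfold b5q11 at hb
  simp only [List.mem_append] at hb
  rcases hb with hb | hb
  exacts [List.all_eq_true.mp g5q11_0_ok b hb, List.all_eq_true.mp g5q11_1_ok b hb]

set_option maxRecDepth 100000 in
lemma b5q11_top : qchkB (mkq nc5 true true) b5q11 25 (nc5.R * nc5.D) (nc5.R * nc5.D) (nc5.R * nc5.D) = true := by
  decide +kernel

theorem nc5_q11 : qchk (mkq nc5 true true) 25 (nc5.R * nc5.D) (nc5.R * nc5.D) (nc5.R * nc5.D) = true :=
  qchkB_sound b5q11_ok _ _ _ _ b5q11_top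

theorem nc5_cert : Cert2 ((nc5.T1 : ℝ) / nc5.M) ((nc5.T2 : ℝ) / nc5.M) ((nc5.wR : ℝ) / nc5.wd)
    ((nc5.wB : ℝ) / nc5.wd) ((nc5.g0 : ℝ) / nc5.K) ((nc5.a1 : ℝ) / nc5.K) ((nc5.a2 : ℝ) / nc5.K) nc5.rP
    ((nc5.dl : ℝ) / nc5.K) :=
  cert_of nc5_ok nc5_q00 nc5_q01 nc5_q10 nc5_q11

end Pool.Agent.Run7.h214.D6
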