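import Pool.Agent.Run7.h214.D6.Tab

set_option autoImplicit false

/-!
# Rows, checked by the kernel
-/

namespace Pool.Agent.Run7.h214.D6

open Pool.Agent.TH428.RM TH502.RM

/-- row 0 -/
def rw0 : MRow :=
  ⟨(36954539, 2998615319), (11928563, 4434778000), (37254945, 2987363524), false, 17425585, 26698496, 950143944, [
    .ch ⟨1000000000, ⟨950143943, 51141787, 2998615286⟩, ⟨0, 0, 0⟩, [⟨26698497, true, 120, [63526958530560]⟩]⟩]⟩

/-- row 1 -/
def rw1 : MRow :=
  ⟨(37254945, 2987363524), (36954539, 2998615319), (37592917, 2975245546), false, 26698495, 27890132, 949579806, [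
    .ch ⟨1000000000, ⟨949579805, 51735703, 2987363490⟩, ⟨0, 0, 0⟩, [⟨27890133, true, 114, [84128350863873]⟩]⟩]⟩

/-- row 2 -/
def rw2 : MRow :=
  ⟨(37592917, 2975245546), (37254945, 2987363524), (37957051, 2962656822), false, 27890131, 28925410, 948965098, [
    .ch ⟨1000000000, ⟨948965097, 52383260, 2975245508⟩, ⟨0, 0, 0⟩, [⟨28925411, true, 114, [90439432143874]⟩]⟩]⟩

/-- row 3 -/
def rw3 : MRow :=
  ⟨(37957051, 2962656822), (37592917, 2975245546), (38345185, 2949670481), false, 28925409, 29887865, 948318573, [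
    .ch ⟨1000000000, ⟨948318572, 53064787, 2962656789⟩, ⟨0, 0, 0⟩, [⟨29887866, true, 114, [96200218510851]⟩]⟩]⟩

/-- row 4 -/
def rw4 : MRow :=
  ⟨(38345185, 2949670481), (37957051, 2962656822), (38762855, 2936121013), false, 29887864, 30825565, 947643044, [
    .ch ⟨1000000000, ⟨947643043, 53777385, 2949670457⟩, ⟨0, 0, 0⟩, [⟨30825566, true, 114, [101795480340484]⟩]⟩]⟩

/-- rows of this file -/
def rws0 : List MRow := [rw0, rw1, rw2, rw3, rw4]

set_option maxRecDepth 100000 in
theorem rws0_ok : rws0.all (fun r => mrowchk mT aT 8 dcs AllL r) = true := by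
  decide +kernel

end Pool.Agent.Run7.h214.D6
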