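import Pool.Agent.Run7.h214.D6.Tab

set_option autoImplicit false

/-!
# Rows, checked by the kernel
-/

namespace Pool.Agent.Run7.h214.D6

open Pool.Agent.TH428.RM TH502.RM

/-- row 5 -/
def rw5 : MRow :=
  ⟨(38762855, 2936121013), (38345185, 2949670481), (39231064, 2921395879), false, 30825564, 31796587, 946928807, [
    .ch ⟨1000000000, ⟨946928806, 54531368, 2936120984⟩, ⟨0, 0, 0⟩, [⟨31796588, true, 114, [107483265239557]⟩]⟩]⟩

/-- row 6 -/
def rw6 : MRow :=
  ⟨(39231064, 2921395879), (38762855, 2936121013), (39766516, 2905085601), false, 31796586, 32829116, 946141545, [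
    .ch ⟨1000000000, ⟨946141544, 55363098, 2921395859⟩, ⟨0, 0, 0⟩, [⟨32829117, true, 114, [113619738823686]⟩]⟩]⟩

/-- row 7 -/
def rw7 : MRow :=
  ⟨(39766516, 2905085601), (39231064, 2921395879), (40360068, 2887579914), false, 32829115, 33906239, 945255895, [
    .ch ⟨1000000000, ⟨945255894, 56299601, 2905085570⟩, ⟨0, 0, 0⟩, [⟨33906240, true, 116, [113908156206599]⟩]⟩]⟩

/-- row 8 -/
def rw8 : MRow :=
  ⟨(40360068, 2887579914), (39766516, 2905085601), (41010771, 2869004010), false, 33906238, 35029413, 944289125, [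
    .ch ⟨1000000000, ⟨944289124, 57322885, 2887579891⟩, ⟨0, 0, 0⟩, [⟨35029414, true, 116, [120864097177608]⟩]⟩]⟩

/-- row 9 -/
def rw9 : MRow :=
  ⟨(41010771, 2869004010), (40360068, 2887579914), (41713144, 2849594628), false, 35029412, 36187294, 943244573, [
    .ch ⟨1000000000, ⟨943244572, 58429675, 2869003980⟩, ⟨0, 0, 0⟩, [⟨36187295, true, 118, [121524846465545]⟩]⟩]⟩

/-- rows of this file -/
def rws1 : List MRow := [rw5, rw6, rw7, rw8, rw9]

set_option maxRecDepth 100000 in
theorem rws1_ok : rws1.all (fun r => mrowchk mT aT 8 dcs AllL r) = true := by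
  decide +kernel

end Pool.Agent.Run7.h214.D6
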