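import Pool.Agent.Run7.h214.D6.Tab

set_option autoImplicit false

/-!
# Rows, checked by the kernel
-/

namespace Pool.Agent.Run7.h214.D6

open Pool.Agent.TH428.RM TH502.RM

/-- row 50 -/
def rw50 : MRow :=
  ⟨(120174560, 1826048212), (116705344, 1852257927), (123620250, 1800860000), false, 132363743, 136797722, 838951257, [
    .ch ⟨1000000000, ⟨838951256, 175602672, 1826048203⟩, ⟨0, 0, 0⟩, [⟨136797723, true, 186, [187980052456498]⟩]⟩]⟩

/-- row 51 -/
def rw51 : MRow :=
  ⟨(123620250, 1800860000), (120174560, 1826048212), (127006501, 1776872342), false, 136797721, 141166387, 834843207, [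
    .ch ⟨1000000000, ⟨834843206, 180511350, 1800859990⟩, ⟨0, 0, 0⟩, [⟨141166388, true, 188, [182542173890099]⟩]⟩]⟩

/-- row 52 -/
def rw52 : MRow :=
  ⟨(127006501, 1776872342), (123620250, 1800860000), (130335208, 1753996268), false, 141166386, 145510415, 830833584, [
    .ch ⟨1000000000, ⟨830833583, 185325766, 1776872333⟩, ⟨0, 0, 0⟩, [⟨145510416, true, 190, [187328369158196]⟩]⟩]⟩

/-- row 53 -/
def rw53 : MRow :=
  ⟨(130335208, 1753996268), (127006501, 1776872342), (133733197, 1731341109), false, 145510414, 149987427, 826919117, [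
    .ch ⟨1000000000, ⟨826919116, 190048393, 1753996257⟩, ⟨0, 0, 0⟩, [⟨149987428, true, 192, [191445183785525]⟩]⟩]⟩

/-- row 54 -/
def rw54 : MRow :=
  ⟨(133733197, 1731341109), (130335208, 1753996268), (137599207, 1706415289), false, 149987426, 155100615, 822953188, [
    .ch ⟨1000000000, ⟨822953187, 194855961, 1731341102⟩, ⟨0, 0, 0⟩, [⟨155100616, true, 192, [204801596353590]⟩]⟩]⟩

/-- rows of this file -/
def rws10 : List MRow := [rw50, rw51, rw52, rw53, rw54]

set_option maxRecDepth 100000 in
theorem rws10_ok : rws10.all (fun r => mrowchk mT aT 8 dcs AllL r) = true := by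
  decide +kernel

end Pool.Agent.Run7.h214.D6
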