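import Pool.Agent.Run7.h214.D6.Tab

set_option autoImplicit false

/-!
# Rows, checked by the kernel
-/

namespace Pool.Agent.Run7.h214.D6

open Pool.Agent.TH428.RM TH502.RM

/-- row 55 -/
def rw55 : MRow :=
  ⟨(137599207, 1706415289), (133733197, 1731341109), (141542203, 1681829158), false, 155100614, 160374807, 818484692, [
    .ch ⟨1000000000, ⟨818484691, 200300587, 1706415282⟩, ⟨0, 0, 0⟩, [⟨160374808, true, 194, [210269806423607]⟩]⟩]⟩

/-- row 56 -/
def rw56 : MRow :=
  ⟨(141542203, 1681829158), (137599207, 1706415289), (145357451, 1658780509), false, 160374806, 165530223, 813966619, [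
    .ch ⟨1000000000, ⟨813966618, 205835924, 1681829149⟩, ⟨0, 0, 0⟩, [⟨165530224, true, 196, [217260581089336]⟩]⟩]⟩

/-- row 57 -/
def rw57 : MRow :=
  ⟨(145357451, 1658780509), (141542203, 1681829158), (148996896, 1637436845), false, 165530222, 170516412, 809629005, [
    .ch ⟨1000000000, ⟨809629004, 211179156, 1658780501⟩, ⟨0, 0, 0⟩, [⟨170516413, true, 198, [217623058215481]⟩]⟩]⟩

/-- row 58 -/
def rw58 : MRow :=
  ⟨(148996896, 1637436845), (145357451, 1658780509), (153037312, 1614496408), false, 170516411, 176126375, 805522118, [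
    .ch ⟨1000000000, ⟨805522117, 216264620, 1637436835⟩, ⟨0, 0, 0⟩, [⟨176126376, true, 200, [228931491623994]⟩]⟩]⟩

/-- row 59 -/
def rw59 : MRow :=
  ⟨(153037312, 1614496408), (148996896, 1637436845), (156975106, 1592812330), false, 176126374, 181598406, 801009144, [
    .ch ⟨1000000000, ⟨801009143, 221882918, 1614496401⟩, ⟨0, 0, 0⟩, [⟨181598407, true, 200, [247475684931131]⟩]⟩]⟩

/-- rows of this file -/
def rws11 : List MRow := [rw55, rw56, rw57, rw58, rw59]

set_option maxRecDepth 100000 in
theorem rws11_ok : rws11.all (fun r => mrowchk mT aT 8 dcs AllL r) = true := by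
  decide +kernel

end Pool.Agent.Run7.h214.D6
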