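import Pool.Agent.Run7.h214.D6.Tab

set_option autoImplicit false

/-!
# Rows, checked by the kernel
-/

namespace Pool.Agent.Run7.h214.D6

open Pool.Agent.TH428.RM TH502.RM

/-- row 10 -/
def rw10 : MRow :=
  ⟨(41713144, 2849594628), (41010771, 2869004010), (42472620, 2829282537), false, 36187293, 37390341, 942132225, [
    .ch ⟨1000000000, ⟨942132224, 59609650, 2849594596⟩, ⟨0, 0, 0⟩, [⟨37390342, true, 118, [129188769043466]⟩]⟩]⟩

/-- row 11 -/
def rw11 : MRow :=
  ⟨(42472620, 2829282537), (41713144, 2849594628), (43281248, 2808353258), false, 37390340, 38636210, 940944791, [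
    .ch ⟨1000000000, ⟨940944790, 60870813, 2829282510⟩, ⟨0, 0, 0⟩, [⟨38636211, true, 120, [130235079595531]⟩]⟩]⟩

/-- row 12 -/
def rw12 : MRow :=
  ⟨(43281248, 2808353258), (42472620, 2829282537), (44149256, 2786612618), false, 38636209, 39925596, 939695783, [
    .ch ⟨1000000000, ⟨939695782, 62199093, 2808353228⟩, ⟨0, 0, 0⟩, [⟨39925597, true, 120, [138746157996044]⟩]⟩]⟩

/-- row 13 -/
def rw13 : MRow :=
  ⟨(44149256, 2786612618), (43281248, 2808353258), (45068191, 2764341117), false, 39925595, 41260578, 938370376, [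
    .ch ⟨1000000000, ⟨938370375, 63610552, 2786612599⟩, ⟨0, 0, 0⟩, [⟨41260579, true, 122, [138171682265613]⟩]⟩]⟩

/-- row 14 -/
def rw14 : MRow :=
  ⟨(45068191, 2764341117), (44149256, 2786612618), (46034298, 2741680654), false, 41260577, 42634037, 936982393, [
    .ch ⟨1000000000, ⟨936982392, 65090789, 2764341100⟩, ⟨0, 0, 0⟩, [⟨42634038, true, 124, [138068595186702]⟩]⟩]⟩

/-- rows of this file -/
def rws2 : List MRow := [rw10, rw11, rw12, rw13, rw14]

set_option maxRecDepth 100000 in
theorem rws2_ok : rws2.all (fun r => mrowchk mT aT 8 dcs AllL r) = true := by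
  decide +kernel

end Pool.Agent.Run7.h214.D6
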