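import Pool.Agent.Run7.h214.D6.Tab

set_option autoImplicit false

/-!
# Rows, checked by the kernel
-/

namespace Pool.Agent.Run7.h214.D6

open Pool.Agent.TH428.RM TH502.RM

/-- row 110 -/
def rw110 : MRow :=
  ⟨(567294289, 567294378), (554062331, 580833164), (567294289, 567294378), true, 977337111, 1000000000, 432942390, [
    .ch ⟨439818981, ⟨0, 0, 0⟩, ⟨560181018, 579495302, 821392042⟩, [⟨1000000001, false, 224, [3091838099327108]⟩]⟩,
    .bk ⟨490447166, 5, false, 2022320162, 3090573820, 2398357900, 496651790, 3098799247, 941811259, (247726362, 1178023728), true, (243154980, 1194932482), true, 531603930, (317489906, 970047451), false, (304736684, 1002661490), false, 1040, ⟨821392046, 341866275, 579495302, 224138192, 608175082, 544343346, 1176913827, 308228519⟩, ⟨712437723, 287031208, 674221736, 268500485, 802018329, 448422986, 905971957, 404148879⟩⟩,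
    .bk ⟨499083921, 5, false, 2534537547, 2702885137, 2749444259, 698749745, 2858745233, 769969813, (275691224, 1084791274), true, (268897454, 1105973373), true, 999999177, (289548958, 1044015018), false, (279536860, 1073219544), false, 532629812, ⟨712437723, 287031208, 674221736, 268500485, 807695805, 445884288, 899674214, 406702137⟩, ⟨694981022, 278521292, 691316701, 276744650, 847603988, 428440252, 857677132, 424146175⟩⟩,
    .bk ⟨505528792, 5, false, 2584106902, 2531987431, 2771578574, 722948091, 2746677911, 698046702, (289548958, 1044015018), true, (279536860, 1073219544), true, 22996057, (275691224, 1084791274), false, (268897454, 1105973373), false, 999999262, ⟨694981022, 278521292, 691316701, 276744650, 844164774, 429916286, 861162511, 422670438⟩, ⟨682150287, 272315011, 704266357, 283038294, 874213672, 417189939, 831497516, 435396785⟩⟩,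
    .bk ⟨527863020, 5, false, 2819611712, 2416513880, 2902287754, 831175310, 2700733564, 641109083, (294783620, 1029321745), true, (289548958, 1044015018), true, 999997437, (268897454, 1105973373), false, (263503589, 1123445167), false, 333656987, ⟨682150287, 272315011, 704266357, 283038294, 850412445, 427238684, 854848573, 425347596⟩, ⟨638918463, 251706036, 750486126, 305843211, 961523483, 382310000, 754434935, 470276277⟩⟩,
    .bk ⟨563549292, 0, false, 3817748974, 2046563190, 3542468648, 1279323840, 2472677180, 490481033, (335099013, 927894553), true, (328776839, 942582384), true, 999996965, (239660927, 1208209161), false, (234328573, 1229230680), false, 999981757, ⟨638918463, 248222997, 750486126, 301717558, 989000334, 371948330, 762727780, 466392475⟩, ⟨573500477, 218297684, 829079838, 341268565, 1223074959, 294323741, 623497924, 536066037⟩⟩,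
    .ch ⟨1000000000, ⟨563549291, 573500477, 829079834⟩, ⟨0, 0, 0⟩, [⟨1000000001, true, 225, [2729996614568581]⟩]⟩]⟩

/-- rows of this file -/
def rws22 : List MRow := [rw110]

set_option maxRecDepth 100000 in
theorem rws22_ok : rws22.all (fun r => mrowchk mT aT 8 dcs AllL r) = true := by
  decide +kernel

end Pool.Agent.Run7.h214.D6
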