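import Pool.Agent.Run7.h214.D6.Tab

set_option autoImplicit false

/-!
# Rows, checked by the kernel
-/

namespace Pool.Agent.Run7.h214.D6

open Pool.Agent.TH428.RM TH502.RM

/-- row 15 -/
def rw15 : MRow :=
  ⟨(46034298, 2741680654), (45068191, 2764341117), (47061239, 2718371379), false, 42634036, 44057184, 935538082, [
    .ch ⟨1000000000, ⟨935538081, 66633428, 2741680633⟩, ⟨0, 0, 0⟩, [⟨44057185, true, 124, [147301320498703]⟩]⟩]⟩

/-- row 16 -/
def rw16 : MRow :=
  ⟨(47061239, 2718371379), (46034298, 2741680654), (48139004, 2694697890), false, 44057183, 45526243, 934017873, [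
    .ch ⟨1000000000, ⟨934017872, 68259707, 2718371362⟩, ⟨0, 0, 0⟩, [⟨45526244, true, 126, [147562720665616]⟩]⟩]⟩

/-- row 17 -/
def rw17 : MRow :=
  ⟨(48139004, 2694697890), (47061239, 2718371379), (49264662, 2670766916), false, 45526242, 47037702, 932437209, [
    .ch ⟨1000000000, ⟨932437208, 69953467, 2694697862⟩, ⟨0, 0, 0⟩, [⟨47037703, true, 128, [148271176098321]⟩]⟩]⟩

/-- row 18 -/
def rw18 : MRow :=
  ⟨(49264662, 2670766916), (48139004, 2694697890), (50433905, 2646702305), false, 47037701, 48587655, 930800864, [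
    .ch ⟨1000000000, ⟨930800863, 71709921, 2670766888⟩, ⟨0, 0, 0⟩, [⟨48587656, true, 130, [149358257382418]⟩]⟩]⟩

/-- row 19 -/
def rw19 : MRow :=
  ⟨(50433905, 2646702305), (49264662, 2670766916), (51634095, 2622777567), false, 48587654, 50165231, 929115416, [
    .ch ⟨1000000000, ⟨929115415, 73522313, 2646702288⟩, ⟨0, 0, 0⟩, [⟨50165232, true, 132, [150441313707539]⟩]⟩]⟩

/-- rows of this file -/
def rws3 : List MRow := [rw15, rw16, rw17, rw18, rw19]

set_option maxRecDepth 100000 in
theorem rws3_ok : rws3.all (fun r => mrowchk mT aT 8 dcs AllL r) = true := by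
  decide +kernel

end Pool.Agent.Run7.h214.D6
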