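import Pool.Agent.Run7.h214.D6.Tab

set_option autoImplicit false

/-!
# Rows, checked by the kernel
-/

namespace Pool.Agent.Run7.h214.D6

open Pool.Agent.TH428.RM TH502.RM

/-- row 20 -/
def rw20 : MRow :=
  ⟨(51634095, 2622777567), (50433905, 2646702305), (52866356, 2598973715), false, 50165230, 51767294, 927399071, [
    .ch ⟨1000000000, ⟨927399070, 75371310, 2622777548⟩, ⟨0, 0, 0⟩, [⟨51767295, true, 134, [150456360511508]⟩]⟩]⟩

/-- row 21 -/
def rw21 : MRow :=
  ⟨(52866356, 2598973715), (51634095, 2622777567), (54151145, 2574922796), false, 51767293, 53419539, 925650156, [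
    .ch ⟨1000000000, ⟨925650155, 77258919, 2598973691⟩, ⟨0, 0, 0⟩, [⟨53419540, true, 134, [160415599438357]⟩]⟩]⟩

/-- row 22 -/
def rw22 : MRow :=
  ⟨(54151145, 2574922796), (52866356, 2598973715), (55541131, 2549738106), false, 53419538, 55191706, 923840297, [
    .ch ⟨1000000000, ⟨923840296, 79216063, 2574922776⟩, ⟨0, 0, 0⟩, [⟨55191707, true, 136, [160366674979862]⟩]⟩]⟩

/-- row 23 -/
def rw23 : MRow :=
  ⟨(55541131, 2549738106), (54151145, 2574922796), (57000385, 2524154663), false, 55191705, 57039000, 921897882, [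
    .ch ⟨1000000000, ⟨921897881, 81320820, 2549738091⟩, ⟨0, 0, 0⟩, [⟨57039001, true, 138, [161343406091799]⟩]⟩]⟩

/-- row 24 -/
def rw24 : MRow :=
  ⟨(57000385, 2524154663), (55541131, 2549738106), (58515409, 2498453798), false, 57038999, 58948367, 919873982, [
    .ch ⟨1000000000, ⟨919873981, 83518596, 2524154647⟩, ⟨0, 0, 0⟩, [⟨58948368, true, 140, [163138102636568]⟩]⟩]⟩

/-- rows of this file -/
def rws4 : List MRow := [rw20, rw21, rw22, rw23, rw24]

set_option maxRecDepth 100000 in
theorem rws4_ok : rws4.all (fun r => mrowchk mT aT 8 dcs AllL r) = true := by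
  decide +kernel

end Pool.Agent.Run7.h214.D6
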