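import Pool.Agent.Run7.h214.D6.Tab

set_option autoImplicit false

/-!
# Rows, checked by the kernel
-/

namespace Pool.Agent.Run7.h214.D6

open Pool.Agent.TH428.RM TH502.RM

/-- row 25 -/
def rw25 : MRow :=
  ⟨(58515409, 2498453798), (57000385, 2524154663), (60086393, 2472665572), false, 58948366, 60918654, 917787983, [
    .ch ⟨1000000000, ⟨917787982, 85788872, 2498453784⟩, ⟨0, 0, 0⟩, [⟨60918655, true, 142, [164184529973785]⟩]⟩]⟩

/-- row 26 -/
def rw26 : MRow :=
  ⟨(60086393, 2472665572), (58515409, 2498453798), (61712463, 2446835418), false, 60918653, 62952393, 915640307, [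
    .ch ⟨1000000000, ⟨915640306, 88131671, 2472665551⟩, ⟨0, 0, 0⟩, [⟨62952394, true, 144, [165743627482138]⟩]⟩]⟩

/-- row 27 -/
def rw27 : MRow :=
  ⟨(61712463, 2446835418), (60086393, 2472665572), (63399802, 2420896355), false, 62952392, 65050114, 913432897, [
    .ch ⟨1000000000, ⟨913432896, 90545364, 2446835398⟩, ⟨0, 0, 0⟩, [⟨65050115, true, 146, [166188913014299]⟩]⟩]⟩

/-- row 28 -/
def rw28 : MRow :=
  ⟨(63399802, 2420896355), (61712463, 2446835418), (65143706, 2394950409), false, 65050113, 67212967, 911158052, [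
    .ch ⟨1000000000, ⟨911158051, 93038906, 2420896342⟩, ⟨0, 0, 0⟩, [⟨67212968, true, 148, [161820212607004]⟩]⟩]⟩

/-- row 29 -/
def rw29 : MRow :=
  ⟨(65143706, 2394950409), (63399802, 2420896355), (66944134, 2369041751), false, 67212966, 69491365, 908822799, [
    .ch ⟨1000000000, ⟨908822798, 95605146, 2394950392⟩, ⟨0, 0, 0⟩, [⟨69491366, true, 148, [173256747399709]⟩]⟩]⟩

/-- rows of this file -/
def rws5 : List MRow := [rw25, rw26, rw27, rw28, rw29]

set_option maxRecDepth 100000 in
theorem rws5_ok : rws5.all (fun r => mrowchk mT aT 8 dcs AllL r) = true := by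
  decide +kernel

end Pool.Agent.Run7.h214.D6
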