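import Pool.Agent.Run7.h214.D6.Tab

set_option autoImplicit false

/-!
# Rows, checked by the kernel
-/

namespace Pool.Agent.Run7.h214.D6

open Pool.Agent.TH428.RM TH502.RM

/-- row 30 -/
def rw30 : MRow :=
  ⟨(66944134, 2369041751), (65143706, 2394950409), (69101937, 2338994047), false, 69491364, 71812576, 906429652, [
    .ch ⟨1000000000, ⟨906429651, 98241857, 2369041730⟩, ⟨0, 0, 0⟩, [⟨71812577, true, 148, [186051765746718]⟩]⟩]⟩

/-- row 31 -/
def rw31 : MRow :=
  ⟨(69101937, 2338994047), (66944134, 2369041751), (71273223, 2309682158), false, 71812575, 74075267, 903575411, [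
    .ch ⟨1000000000, ⟨903575410, 101395709, 2338994027⟩, ⟨0, 0, 0⟩, [⟨74075268, true, 152, [114427236335135]⟩]⟩]⟩

/-- row 32 -/
def rw32 : MRow :=
  ⟨(71273223, 2309682158), (69101937, 2338994047), (73618429, 2279054531), false, 74075266, 76571587, 900707193, [
    .ch ⟨1000000000, ⟨900707192, 104575056, 2309682138⟩, ⟨0, 0, 0⟩, [⟨76571588, true, 154, [115625793175584]⟩]⟩]⟩

/-- row 33 -/
def rw33 : MRow :=
  ⟨(73618429, 2279054531), (71273223, 2309682158), (76043494, 2248429679), false, 76571586, 79186179, 897619040, [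
    .ch ⟨1000000000, ⟨897619039, 108009534, 2279054512⟩, ⟨0, 0, 0⟩, [⟨79186180, true, 156, [116923207533089]⟩]⟩]⟩

/-- row 34 -/
def rw34 : MRow :=
  ⟨(76043494, 2248429679), (73618429, 2279054531), (78468755, 2218799338), false, 79186178, 81850594, 894435134, [
    .ch ⟨1000000000, ⟨894435133, 111562897, 2248429662⟩, ⟨0, 0, 0⟩, [⟨81850595, true, 158, [121848521835554]⟩]⟩]⟩

/-- rows of this file -/
def rws6 : List MRow := [rw30, rw31, rw32, rw33, rw34]

set_option maxRecDepth 100000 in
theorem rws6_ok : rws6.all (fun r => mrowchk mT aT 8 dcs AllL r) = true := by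
  decide +kernel

end Pool.Agent.Run7.h214.D6
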