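import Pool.Agent.Run7.h214.D6.Tab

set_option autoImplicit false

/-!
# Rows, checked by the kernel
-/

namespace Pool.Agent.Run7.h214.D6

open Pool.Agent.TH428.RM TH502.RM

/-- row 40 -/
def rw40 : MRow :=
  ⟨(90859768, 2081338303), (88140362, 2109642536), (93589341, 2053854425), false, 96077713, 99315425, 875236870, [
    .ch ⟨1000000000, ⟨875236869, 133260722, 2081338292⟩, ⟨0, 0, 0⟩, [⟨99315426, true, 168, [146265471995944]⟩]⟩]⟩

/-- row 41 -/
def rw41 : MRow :=
  ⟨(93589341, 2053854425), (90859768, 2081338303), (96352149, 2026933360), false, 99315424, 102626252, 871760340, [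
    .ch ⟨1000000000, ⟨871760339, 137240734, 2053854415⟩, ⟨0, 0, 0⟩, [⟨102626253, true, 170, [151652258828841]⟩]⟩]⟩

/-- row 42 -/
def rw42 : MRow :=
  ⟨(96352149, 2026933360), (93589341, 2053854425), (99217495, 1999923980), false, 102626251, 106087071, 868261101, [
    .ch ⟨1000000000, ⟨868261100, 141262804, 2026933346⟩, ⟨0, 0, 0⟩, [⟨106087072, true, 172, [154694084088874]⟩]⟩]⟩

/-- row 43 -/
def rw43 : MRow :=
  ⟨(99217495, 1999923980), (96352149, 2026933360), (102053404, 1974038712), false, 106087070, 109556873, 864654428, [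
    .ch ⟨1000000000, ⟨864654427, 145425359, 1999923972⟩, ⟨0, 0, 0⟩, [⟨109556874, true, 174, [158211336590891]⟩]⟩]⟩

/-- row 44 -/
def rw44 : MRow :=
  ⟨(102053404, 1974038712), (99217495, 1999923980), (104847274, 1949316551), false, 109556872, 113010752, 861105233, [
    .ch ⟨1000000000, ⟨861105232, 149538562, 1974038698⟩, ⟨0, 0, 0⟩, [⟨113010753, true, 176, [159730947348524]⟩]⟩]⟩

/-- rows of this file -/
def rws8 : List MRow := [rw40, rw41, rw42, rw43, rw44]

set_option maxRecDepth 100000 in
theorem rws8_ok : rws8.all (fun r => mrowchk mT aT 8 dcs AllL r) = true := by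
  decide +kernel

end Pool.Agent.Run7.h214.D6
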