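import Pool.Agent.Run7.h214.D6.Tab

set_option autoImplicit false

/-!
# Rows, checked by the kernel
-/

namespace Pool.Agent.Run7.h214.D6

open Pool.Agent.TH428.RM TH502.RM

/-- row 45 -/
def rw45 : MRow :=
  ⟨(104847274, 1949316551), (102053404, 1974038712), (107621555, 1925499573), false, 113010751, 116483334, 857628657, [
    .ch ⟨1000000000, ⟨857628656, 153584076, 1949316537⟩, ⟨0, 0, 0⟩, [⟨116483335, true, 178, [164989012564525]⟩]⟩]⟩

/-- row 46 -/
def rw46 : MRow :=
  ⟨(107621555, 1925499573), (104847274, 1949316551), (110412569, 1902233751), false, 116483333, 119961977, 854197100, [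
    .ch ⟨1000000000, ⟨854197099, 157593317, 1925499563⟩, ⟨0, 0, 0⟩, [⟨119961978, true, 178, [175830173637678]⟩]⟩]⟩

/-- row 47 -/
def rw47 : MRow :=
  ⟨(110412569, 1902233751), (107621555, 1925499573), (113183970, 1879786367), false, 119961976, 123462093, 850765106, [
    .ch ⟨1000000000, ⟨850765105, 161619211, 1902233738⟩, ⟨0, 0, 0⟩, [⟨123462094, true, 180, [172214404537903]⟩]⟩]⟩

/-- row 48 -/
def rw48 : MRow :=
  ⟨(113183970, 1879786367), (110412569, 1902233751), (116705344, 1852257927), false, 123462092, 127917674, 847377292, [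
    .ch ⟨1000000000, ⟨847377291, 165609240, 1879786358⟩, ⟨0, 0, 0⟩, [⟨127917675, true, 182, [175413617647664]⟩]⟩]⟩

/-- row 49 -/
def rw49 : MRow :=
  ⟨(116705344, 1852257927), (113183970, 1879786367), (120174560, 1826048212), false, 127917673, 132363744, 843117463, [
    .ch ⟨1000000000, ⟨843117462, 170648993, 1852257920⟩, ⟨0, 0, 0⟩, [⟨132363745, true, 184, [181753008382513]⟩]⟩]⟩

/-- rows of this file -/
def rws9 : List MRow := [rw45, rw46, rw47, rw48, rw49]

set_option maxRecDepth 100000 in
theorem rws9_ok : rws9.all (fun r => mrowchk mT aT 8 dcs AllL r) = true := by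
  decide +kernel

end Pool.Agent.Run7.h214.D6
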