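import Pool.Agent.Run7.h214.D6.N1
import Pool.Agent.Run7.h214.D6.N2
import Pool.Agent.Run7.h214.D6.N3
import Pool.Agent.Run7.h214.D6.N4
import Pool.Agent.Run7.h214.D6.N5
import Pool.Agent.Run7.h214.D6.R0
import Pool.Agent.Run7.h214.D6.R1
import Pool.Agent.Run7.h214.D6.R2
import Pool.Agent.Run7.h214.D6.R3
import Pool.Agent.Run7.h214.D6.R4
import Pool.Agent.Run7.h214.D6.R5
import Pool.Agent.Run7.h214.D6.R6
import Pool.Agent.Run7.h214.D6.R7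
import Pool.Agent.Run7.h214.D6.R8
import Pool.Agent.Run7.h214.D6.R9
import Pool.Agent.Run7.h214.D6.R10
import Pool.Agent.Run7.h214.D6.R11
import Pool.Agent.Run7.h214.D6.R12
import Pool.Agent.Run7.h214.D6.R13
import Pool.Agent.Run7.h214.D6.R14
import Pool.Agent.Run7.h214.D6.R15
import Pool.Agent.Run7.h214.D6.R16
import Pool.Agent.Run7.h214.D6.R17
import Pool.Agent.Run7.h214.D6.R18
import Pool.Agent.Run7.h214.D6.R19
import Pool.Agent.Run7.h214.D6.R20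
import Pool.Agent.Run7.h214.D6.R21
import Pool.Agent.Run7.h214.D6.R22
import Pool.Agent.TH428.RM.Final

set_option autoImplicit false

/-!
# The bound on two-coloured sets from mixed rows
-/

namespace Pool.Agent.Run7.h214.D6

open W478R H110R2 Pool.Agent.TH428.RM TH502.RM

lemma dc1_ok : CCOK 1000000000 8 dc1 where
  hT10 := by decide
  hT1N := by decide
  hT20 := by decide
  hT2N := by decide
  hl1 := by decide +kernel
  hl2 := by decide +kernel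
  hcert := by
    have h := nc1_cert
    have e1 : ((nc1.T1 : ℕ) : ℝ) / (nc1.M : ℕ) = ((dc1.T1 : ℕ) : ℝ) / ((1000000000 : ℕ) : ℝ) := by
      norm_num [nc1, dc1]
    have e2 : ((nc1.T2 : ℕ) : ℝ) / (nc1.M : ℕ) = ((dc1.T2 : ℕ) : ℝ) / ((1000000000 : ℕ) : ℝ) := by
      norm_num [nc1, dc1]
    have e3 : ((nc1.wR : ℕ) : ℝ) / (nc1.wd : ℕ) = ((dc1.wR : ℕ) : ℝ) / ((1000000000 : ℕ) : ℝ) := by
      norm_num [nc1, dc1]
    have e4 : ((nc1.wB : ℕ) : ℝ) / (nc1.wd : ℕ) = ((dc1.wB : ℕ) : ℝ) / ((1000000000 : ℕ) : ℝ) := by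
      norm_num [nc1, dc1]
    rw [e1, e2, e3, e4] at h
    refine ⟨_, _, _, _, _, h, ?_⟩
    have h1 := C8c_eight
    have h2 : ((dc1.G : ℕ) : ℝ) / ((1000000000 : ℕ) : ℝ) ≤
        ((nc1.g0 : ℕ) : ℝ) / (nc1.K : ℕ) - 2 * (((nc1.dl : ℕ) : ℝ) / (nc1.K : ℕ)) * 11879600000 := by
      norm_num [nc1, dc1]
    refine h2.trans ?_
    have h3 : (0 : ℝ) ≤ 2 * (((nc1.dl : ℕ) : ℝ) / (nc1.K : ℕ)) := by positivity
    have h4 := mul_le_mul_of_nonneg_left h1 h3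
    linarith

lemma dc2_ok : CCOK 1000000000 8 dc2 where
  hT10 := by decide
  hT1N := by decide
  hT20 := by decide
  hT2N := by decide
  hl1 := by decide +kernel
  hl2 := by decide +kernel
  hcert := by
    have h := nc2_cert
    have e1 : ((nc2.T1 : ℕ) : ℝ) / (nc2.M : ℕ) = ((dc2.T1 : ℕ) : ℝ) / ((1000000000 : ℕ) : ℝ) := by
      norm_num [nc2, dc2]
    have e2 : ((nc2.T2 : ℕ) : ℝ) / (nc2.M : ℕ) = ((dc2.T2 : ℕ) : ℝ) / ((1000000000 : ℕ) : ℝ) := by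
      norm_num [nc2, dc2]
    have e3 : ((nc2.wR : ℕ) : ℝ) / (nc2.wd : ℕ) = ((dc2.wR : ℕ) : ℝ) / ((1000000000 : ℕ) : ℝ) := by
      norm_num [nc2, dc2]
    have e4 : ((nc2.wB : ℕ) : ℝ) / (nc2.wd : ℕ) = ((dc2.wB : ℕ) : ℝ) / ((1000000000 : ℕ) : ℝ) := by
      norm_num [nc2, dc2]
    rw [e1, e2, e3, e4] at h
    refine ⟨_, _, _, _, _, h, ?_⟩
    have h1 := C8c_eight
    have h2 : ((dc2.G : ℕ) : ℝ) / ((1000000000 : ℕ) : ℝ) ≤
        ((nc2.g0 : ℕ) : ℝ) / (nc2.K : ℕ) - 2 * (((nc2.dl : ℕ) : ℝ) / (nc2.K : ℕ)) * 11879600000 := by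
      norm_num [nc2, dc2]
    refine h2.trans ?_
    have h3 : (0 : ℝ) ≤ 2 * (((nc2.dl : ℕ) : ℝ) / (nc2.K : ℕ)) := by positivity
    have h4 := mul_le_mul_of_nonneg_left h1 h3
    linarith

lemma dc3_ok : CCOK 1000000000 8 dc3 where
  hT10 := by decide
  hT1N := by decide
  hT20 := by decide
  hT2N := by decide
  hl1 := by decide +kernel
  hl2 := by decide +kernel
  hcert := by
    have h := nc3_cert
    have e1 : ((nc3.T1 : ℕ) : ℝ) / (nc3.M : ℕ) = ((dc3.T1 : ℕ) : ℝ) / ((1000000000 : ℕ) : ℝ) := by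
      norm_num [nc3, dc3]
    have e2 : ((nc3.T2 : ℕ) : ℝ) / (nc3.M : ℕ) = ((dc3.T2 : ℕ) : ℝ) / ((1000000000 : ℕ) : ℝ) := by
      norm_num [nc3, dc3]
    have e3 : ((nc3.wR : ℕ) : ℝ) / (nc3.wd : ℕ) = ((dc3.wR : ℕ) : ℝ) / ((1000000000 : ℕ) : ℝ) := by
      norm_num [nc3, dc3]
    have e4 : ((nc3.wB : ℕ) : ℝ) / (nc3.wd : ℕ) = ((dc3.wB : ℕ) : ℝ) / ((1000000000 : ℕ) : ℝ) := by
      norm_num [nc3, dc3]
    rw [e1, e2, e3, e4] at h
    refine ⟨_, _, _, _, _, h, ?_⟩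
    have h1 := C8c_eight
    have h2 : ((dc3.G : ℕ) : ℝ) / ((1000000000 : ℕ) : ℝ) ≤
        ((nc3.g0 : ℕ) : ℝ) / (nc3.K : ℕ) - 2 * (((nc3.dl : ℕ) : ℝ) / (nc3.K : ℕ)) * 11879600000 := by
      norm_num [nc3, dc3]
    refine h2.trans ?_
    have h3 : (0 : ℝ) ≤ 2 * (((nc3.dl : ℕ) : ℝ) / (nc3.K : ℕ)) := by positivity
    have h4 := mul_le_mul_of_nonneg_left h1 h3
    linarith

lemma dc4_ok : CCOK 1000000000 8 dc4 where
  hT10 := by decide
  hT1N := by decide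
  hT20 := by decide
  hT2N := by decide
  hl1 := by decide +kernel
  hl2 := by decide +kernel
  hcert := by
    have h := nc4_cert
    have e1 : ((nc4.T1 : ℕ) : ℝ) / (nc4.M : ℕ) = ((dc4.T1 : ℕ) : ℝ) / ((1000000000 : ℕ) : ℝ) := by
      norm_num [nc4, dc4]
    have e2 : ((nc4.T2 : ℕ) : ℝ) / (nc4.M : ℕ) = ((dc4.T2 : ℕ) : ℝ) / ((1000000000 : ℕ) : ℝ) := by
      norm_num [nc4, dc4]
    have e3 : ((nc4.wR : ℕ) : ℝ) / (nc4.wd : ℕ) = ((dc4.wR : ℕ) : ℝ) / ((1000000000 : ℕ) : ℝ) := by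
      norm_num [nc4, dc4]
    have e4 : ((nc4.wB : ℕ) : ℝ) / (nc4.wd : ℕ) = ((dc4.wB : ℕ) : ℝ) / ((1000000000 : ℕ) : ℝ) := by
      norm_num [nc4, dc4]
    rw [e1, e2, e3, e4] at h
    refine ⟨_, _, _, _, _, h, ?_⟩
    have h1 := C8c_eight
    have h2 : ((dc4.G : ℕ) : ℝ) / ((1000000000 : ℕ) : ℝ) ≤
        ((nc4.g0 : ℕ) : ℝ) / (nc4.K : ℕ) - 2 * (((nc4.dl : ℕ) : ℝ) / (nc4.K : ℕ)) * 11879600000 := by
      norm_num [nc4, dc4]
    refine h2.trans ?_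
    have h3 : (0 : ℝ) ≤ 2 * (((nc4.dl : ℕ) : ℝ) / (nc4.K : ℕ)) := by positivity
    have h4 := mul_le_mul_of_nonneg_left h1 h3
    linarith

lemma dc5_ok : CCOK 1000000000 8 dc5 where
  hT10 := by decide
  hT1N := by decide
  hT20 := by decide
  hT2N := by decide
  hl1 := by decide +kernel
  hl2 := by decide +kernel
  hcert := by
    have h := nc5_cert
    have e1 : ((nc5.T1 : ℕ) : ℝ) / (nc5.M : ℕ) = ((dc5.T1 : ℕ) : ℝ) / ((1000000000 : ℕ) : ℝ) := by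
      norm_num [nc5, dc5]
    have e2 : ((nc5.T2 : ℕ) : ℝ) / (nc5.M : ℕ) = ((dc5.T2 : ℕ) : ℝ) / ((1000000000 : ℕ) : ℝ) := by
      norm_num [nc5, dc5]
    have e3 : ((nc5.wR : ℕ) : ℝ) / (nc5.wd : ℕ) = ((dc5.wR : ℕ) : ℝ) / ((1000000000 : ℕ) : ℝ) := by
      norm_num [nc5, dc5]
    have e4 : ((nc5.wB : ℕ) : ℝ) / (nc5.wd : ℕ) = ((dc5.wB : ℕ) : ℝ) / ((1000000000 : ℕ) : ℝ) := by
      norm_num [nc5, dc5]
    rw [e1, e2, e3, e4] at h
    refine ⟨_, _, _, _, _, h, ?_⟩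
    have h1 := C8c_eight
    have h2 : ((dc5.G : ℕ) : ℝ) / ((1000000000 : ℕ) : ℝ) ≤
        ((nc5.g0 : ℕ) : ℝ) / (nc5.K : ℕ) - 2 * (((nc5.dl : ℕ) : ℝ) / (nc5.K : ℕ)) * 11879600000 := by
      norm_num [nc5, dc5]
    refine h2.trans ?_
    have h3 : (0 : ℝ) ≤ 2 * (((nc5.dl : ℕ) : ℝ) / (nc5.K : ℕ)) := by positivity
    have h4 := mul_le_mul_of_nonneg_left h1 h3
    linarith

lemma dcs_ok : ∀ c ∈ dcs, CCOK 1000000000 8 c := by
  intro c hc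
  unfold dcs at hc
  simp only [List.mem_cons, List.not_mem_nil, or_false] at hc
  rcases hc with rfl | rfl | rfl | rfl | rfl | rfl | rfl
  exacts [cc1_ok, cc2_ok, dc1_ok, dc2_ok, dc3_ok, dc4_ok, dc5_ok]

/-- the rows -/
def rowsA : List MRow := rws0 ++ rws1 ++ rws2 ++ rws3 ++ rws4 ++ rws5 ++ rws6 ++ rws7 ++ rws8 ++ rws9 ++ rws10 ++ rws11 ++ rws12 ++ rws13 ++ rws14 ++ rws15 ++ rws16 ++ rws17 ++ rws18 ++ rws19 ++ rws20 ++ rws21 ++ rws22

lemma rowsA_ok : ∀ r ∈ rowsA, mrowchk mT aT 8 dcs AllL r = true := by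
  intro r hr
  unfold rowsA at hr
  simp only [List.mem_append] at hr
  rcases hr with ((((((((((((((((((((((h | h) | h) | h) | h) | h) | h) | h) | h) | h) | h) | h) | h) | h) | h) | h) | h) | h) | h) | h) | h) | h) | h)
  exacts [List.all_eq_true.mp rws0_ok r h, List.all_eq_true.mp rws1_ok r h, List.all_eq_true.mp rws2_ok r h, List.all_eq_true.mp rws3_ok r h, List.all_eq_true.mp rws4_ok r h, List.all_eq_true.mp rws5_ok r h, List.all_eq_true.mp rws6_ok r h, List.all_eq_true.mp rws7_ok r h, List.all_eq_true.mp rws8_ok r h, List.all_eq_true.mp rws9_ok r h, List.all_eq_true.mp rws10_ok r h, List.all_eq_true.mp rws11_ok r h, List.all_eq_true.mp rws12_ok r h, List.all_eq_true.mp rws13_ok r h, List.all_eq_true.mp rws14_ok r h, List.all_eq_true.mp rws15_ok r h, List.all_eq_true.mp rws16_ok r h, List.all_eq_true.mp rws17_ok r h, List.all_eq_true.mp rws18_ok r h, List.all_eq_true.mp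 rws19_ok r h, List.all_eq_true.mp rws20_ok r h, List.all_eq_true.mp rws21_ok r h, List.all_eq_true.mp rws22_ok r h]

set_option maxRecDepth 100000 in
lemma all_eq : AllL = OldL ++ rowsA.map MRow.L := by
  decide +kernel

set_option maxRecDepth 100000 in
lemma old_sub : OldL.all (fun L => Pool.Agent.H111R2.clX.any
    (fun L' => decide (L'.1 = L.1) && decide (L'.2 = L.2))) = true := by
  decide +kernel

lemma oldL_bd : ∃ C : ℝ, 1 ≤ C ∧ ∀ a b : ℕ, BdAt (OldL.map (rl 1000000000)) C a b := by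
  obtain ⟨C, hC, h⟩ := old_bd
  refine ⟨C, hC, fun a b V _ G Z h1 h2 L hL => ?_⟩
  obtain ⟨f, hf, rfl⟩ := List.mem_map.mp hL
  refine h a b V G Z h1 h2 _ (List.mem_map_of_mem ?_)
  have h3 := List.all_eq_true.mp old_sub f hf
  obtain ⟨g, hg, h4⟩ := List.any_eq_true.mp h3
  simp only [Bool.and_eq_true, decide_eq_true_eq] at h4
  have h5 : g = f := Prod.ext h4.1 h4.2
  rwa [← h5]

theorem bound : ∃ C : ℝ, 1 ≤ C ∧ ∀ k l : ℕ, BdAt (AllL.map (rl 1000000000)) C k l := by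
  obtain ⟨C0, -, h0⟩ := oldL_bd
  refine mixed_bound tbook2 dcs_ok mT_ok aT_ok OldL AllL rowsA C0 all_eq h0 ?_ ?_ rowsA_ok
  · decide +kernel
  · intro h
    have h2 : rowsA.length = 0 := by rw [h]; rfl
    exact absurd h2 (by decide +kernel)

theorem mem_last : ((567294289, 567294378) : ℕ × ℕ) ∈ AllL := by
  decide +kernel

end Pool.Agent.Run7.h214.D6
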