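import Pool.Agent.Run7.h214.D6.N1D

set_option autoImplicit false

/-!
# Parts of a certificate, checked by the kernel
-/

namespace Pool.Agent.Run7.h214.D6

open Pool.Agent.TH428.RM

/-- boxes -/
def g1q01_4 : List QB := [⟨16, 32768, 753664, 32768⟩, ⟨21, 3145728, 1048576, 1048576⟩, ⟨19, 786432, 262144, 262144⟩, ⟨18, 1179648, 917504, 131072⟩, ⟨18, 393216, 131072, 131072⟩, ⟨21, 3145728, 3145728, 1048576⟩, ⟨19, 1835008, 786432, 262144⟩, ⟨19, 1310720, 262144, 262144⟩]

set_option maxRecDepth 100000 in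
theorem g1q01_4_ok : g1q01_4.all (fun b => b.chk (mkq nc1 false true)) = true := by
  decide +kernel

/-- boxes -/
def g1q01_5 : List QB := [⟨21, 1048576, 3145728, 1048576⟩, ⟨18, 1179648, 655360, 131072⟩, ⟨17, 196608, 65536, 65536⟩, ⟨24, 25165824, 8388608, 8388608⟩, ⟨18, 393216, 393216, 131072⟩, ⟨22, 2097152, 6291456, 2097152⟩, ⟨22, 6291456, 2097152, 2097152⟩, ⟨23, 4194304, 12582912, 4194304⟩, ⟨23, 12582912, 4194304, 4194304⟩, ⟨24, 8388608, 25165824, 8388608⟩, ⟨16, 32768, 98304, 32768⟩]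

set_option maxRecDepth 100000 in
theorem g1q01_5_ok : g1q01_5.all (fun b => b.chk (mkq nc1 false true)) = true := by
  decide +kernel

/-- boxes -/
def g1q10_0 : List QB := [⟨10, 512, 512, 512⟩, ⟨18, 393216, 131072, 131072⟩]

set_option maxRecDepth 100000 in
theorem g1q10_0_ok : g1q10_0.all (fun b => b.chk (mkq nc1 true false)) = true := by
  decide +kernel

/-- boxes -/
def g1q10_1 : List QB := [⟨16, 884736, 98304, 32768⟩, ⟨19, 262144, 786432, 262144⟩]

set_option maxRecDepth 100000 in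
theorem g1q10_1_ok : g1q10_1.all (fun b => b.chk (mkq nc1 true false)) = true := by
  decide +kernel

/-- boxes -/
def g1q10_2 : List QB := [⟨17, 720896, 1245184, 65536⟩, ⟨13, 4096, 12288, 4096⟩]

set_option maxRecDepth 100000 in
theorem g1q10_2_ok : g1q10_2.all (fun b => b.chk (mkq nc1 true false)) = true := by
  decide +kernel

/-- boxes -/
def g1q10_3 : List QB := [⟨12, 2048, 6144, 2048⟩, ⟨17, 589824, 1245184, 65536⟩, ⟨16, 819200, 98304, 32768⟩]

set_option maxRecDepth 100000 in
theorem g1q10_3_ok : g1q10_3.all (fun b => b.chk (mkq nc1 true false)) = true := by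
  decide +kernel

/-- boxes -/
def g1q10_4 : List QB := [⟨18, 655360, 1441792, 131072⟩, ⟨10, 512, 1536, 512⟩, ⟨17, 196608, 65536, 65536⟩]

set_option maxRecDepth 100000 in
theorem g1q10_4_ok : g1q10_4.all (fun b => b.chk (mkq nc1 true false)) = true := by
  decide +kernel

end Pool.Agent.Run7.h214.D6
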