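import Pool.Agent.Run7.h214.D6.N1P0
import Pool.Agent.Run7.h214.D6.N1P1
import Pool.Agent.Run7.h214.D6.N1P2

set_option autoImplicit false

/-!
# A certificate, checked by the kernel
-/

namespace Pool.Agent.Run7.h214.D6

open Pool.Agent.TH428.RM

/-- all boxes of the quadrant -/
def b1q00 : List QB := g1q00_0 ++ (g1q00_1 ++ (g1q00_2))

lemma b1q00_ok : ∀ b ∈ b1q00, b.chk (mkq nc1 false false) = true := by
  intro b hb
  unfold b1q00 at hb
  simp only [List.mem_append] at hb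
  rcases hb with hb | hb | hb
  exacts [List.all_eq_true.mp g1q00_0_ok b hb, List.all_eq_true.mp g1q00_1_ok b hb, List.all_eq_true.mp g1q00_2_ok b hb]

set_option maxRecDepth 100000 in
lemma b1q00_top : qchkB (mkq nc1 false false) b1q00 25 (nc1.R * nc1.D) (nc1.R * nc1.D) (nc1.R * nc1.D) = true := by
  decide +kernel

theorem nc1_q00 : qchk (mkq nc1 false false) 25 (nc1.R * nc1.D) (nc1.R * nc1.D) (nc1.R * nc1.D) = true :=
  qchkB_sound b1q00_ok _ _ _ _ b1q00_top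

/-- all boxes of the quadrant -/
def b1q01 : List QB := g1q01_0 ++ (g1q01_1 ++ (g1q01_2 ++ (g1q01_3 ++ (g1q01_4 ++ (g1q01_5)))))

lemma b1q01_ok : ∀ b ∈ b1q01, b.chk (mkq nc1 false true) = true := by
  intro b hb
  unfold b1q01 at hb
  simp only [List.mem_append] at hb
  rcases hb with hb | hb | hb | hb | hb | hb
  exacts [List.all_eq_true.mp g1q01_0_ok b hb, List.all_eq_true.mp g1q01_1_ok b hb, List.all_eq_true.mp g1q01_2_ok b hb, List.all_eq_true.mp g1q01_3_ok b hb, List.all_eq_true.mp g1q01_4_ok b hb, List.all_eq_true.mp g1q01_5_ok b hb]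

set_option maxRecDepth 100000 in
lemma b1q01_top : qchkB (mkq nc1 false true) b1q01 25 (nc1.R * nc1.D) (nc1.R * nc1.D) (nc1.R * nc1.D) = true := by
  decide +kernel

theorem nc1_q01 : qchk (mkq nc1 false true) 25 (nc1.R * nc1.D) (nc1.R * nc1.D) (nc1.R * nc1.D) = true :=
  qchkB_sound b1q01_ok _ _ _ _ b1q01_top

/-- all boxes of the quadrant -/
def b1q10 : List QB := g1q10_0 ++ (g1q10_1 ++ (g1q10_2 ++ (g1q10_3 ++ (g1q10_4 ++ (g1q10_5 ++ (g1q10_6 ++ (g1q10_7)))))))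

lemma b1q10_ok : ∀ b ∈ b1q10, b.chk (mkq nc1 true false) = true := by
  intro b hb
  unfold b1q10 at hb
  simp only [List.mem_append] at hb
  rcases hb with hb | hb | hb | hb | hb | hb | hb | hb
  exacts [List.all_eq_true.mp g1q10_0_ok b hb, List.all_eq_true.mp g1q10_1_ok b hb, List.all_eq_true.mp g1q10_2_ok b hb, List.all_eq_true.mp g1q10_3_ok b hb, List.all_eq_true.mp g1q10_4_ok b hb, List.all_eq_true.mp g1q10_5_ok b hb, List.all_eq_true.mp g1q10_6_ok b hb, List.all_eq_true.mp g1q10_7_ok b hb]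

set_option maxRecDepth 100000 in
lemma b1q10_top : qchkB (mkq nc1 true false) b1q10 25 (nc1.R * nc1.D) (nc1.R * nc1.D) (nc1.R * nc1.D) = true := by
  decide +kernel

theorem nc1_q10 : qchk (mkq nc1 true false) 25 (nc1.R * nc1.D) (nc1.R * nc1.D) (nc1.R * nc1.D) = true :=
  qchkB_sound b1q10_ok _ _ _ _ b1q10_top

/-- all boxes of the quadrant -/
def b1q11 : List QB := g1q11_0 ++ (g1q11_1 ++ (g1q11_2 ++ (g1q11_3)))

lemma b1q11_ok : ∀ b ∈ b1q11, b.chk (mkq nc1 true true) = true := by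
  intro b hb
  unfold b1q11 at hb
  simp only [List.mem_append] at hb
  rcases hb with hb | hb | hb | hb
  exacts [List.all_eq_true.mp g1q11_0_ok b hb, List.all_eq_true.mp g1q11_1_ok b hb, List.all_eq_true.mp g1q11_2_ok b hb, List.all_eq_true.mp g1q11_3_ok b hb]

set_option maxRecDepth 100000 in
lemma b1q11_top : qchkB (mkq nc1 true true) b1q11 25 (nc1.R * nc1.D) (nc1.R * nc1.D) (nc1.R * nc1.D) = true := by
  decide +kernel

theorem nc1_q11 : qchk (mkq nc1 true true) 25 (nc1.R * nc1.D) (nc1.R * nc1.D) (nc1.R * nc1.D) = true :=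
  qchkB_sound b1q11_ok _ _ _ _ b1q11_top

theorem nc1_cert : Cert2 ((nc1.T1 : ℝ) / nc1.M) ((nc1.T2 : ℝ) / nc1.M) ((nc1.wR : ℝ) / nc1.wd)
    ((nc1.wB : ℝ) / nc1.wd) ((nc1.g0 : ℝ) / nc1.K) ((nc1.a1 : ℝ) / nc1.K) ((nc1.a2 : ℝ) / nc1.K) nc1.rP
    ((nc1.dl : ℝ) / nc1.K) :=
  cert_of nc1_ok nc1_q00 nc1_q01 nc1_q10 nc1_q11

end Pool.Agent.Run7.h214.D6
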