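import Pool.Agent.Run7.h214.QSplit

set_option autoImplicit false

/-!
# Data of a certificate
-/

namespace Pool.Agent.Run7.h214.D6

open Pool.Agent.TH428.RM

/-- data of the certificate -/
def nc1 : NC :=
  ⟨10000000000000000, 1024, 1000, 16384, 9997621726636606, 7656395985683551, 3111232788152298, 1, 1000000000, 1039623460, 2416093840, 140, 240,
  [(4346703681644081, 1, 1), (69978031240510, 0, 3), (282349274686875, 1, 2), (662937600825337, 2, 1), (11129708639571, 1, 3), (16642098069785, 3, 1), (35065182000, 1, 4), (209991417497, 2, 3), (247832514609, 3, 2), (65091076925, 4, 1), (1748421068, 5, 0)]⟩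

theorem nc1_ok : nc1.ok = true := by decide +kernel

end Pool.Agent.Run7.h214.D6
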