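import Pool.Agent.Run7.h214.QSplit

set_option autoImplicit false

/-!
# Data of a certificate
-/

namespace Pool.Agent.Run7.h214.D6

open Pool.Agent.TH428.RM

/-- data of the certificate -/
def nc2 : NC :=
  ⟨10000000000000000, 1024, 1000, 16384, 9996682826728578, 7475824391154027, 3319686210704972, 1, 1000000000, 1059515610, 2226215200, 160, 240,
  [(4335970551457404, 1, 1), (143104201856, 2, 0), (59053739840107, 0, 3), (291564797306418, 1, 2), (580731565218934, 2, 1), (23539864371, 3, 0), (32078859050327, 1, 3), (33506927421, 2, 2), (41419098990971, 3, 1), (1056736105, 4, 0), (139722673051, 0, 5), (1042347447468, 1, 4), (2500261547717, 2, 3), (2322659125539, 3, 2), (811755297581, 4, 1), (82754260104, 5, 0)]⟩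

theorem nc2_ok : nc2.ok = true := by decide +kernel

end Pool.Agent.Run7.h214.D6
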