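import Pool.Agent.Run7.h214.D6.N2D

set_option autoImplicit false

/-!
# Parts of a certificate, checked by the kernel
-/

namespace Pool.Agent.Run7.h214.D6

open Pool.Agent.TH428.RM

/-- boxes -/
def g2q00_0 : List QB := [⟨13, 4096, 4096, 4096⟩, ⟨13, 4096, 12288, 4096⟩]

set_option maxRecDepth 100000 in
theorem g2q00_0_ok : g2q00_0.all (fun b => b.chk (mkq nc2 false false)) = true := by
  decide +kernel

/-- boxes -/
def g2q00_1 : List QB := [⟨14, 24576, 8192, 8192⟩, ⟨13, 12288, 4096, 4096⟩, ⟨15, 49152, 16384, 16384⟩, ⟨14, 8192, 24576, 8192⟩, ⟨24, 8388608, 25165824, 8388608⟩, ⟨24, 25165824, 8388608, 8388608⟩]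

set_option maxRecDepth 100000 in
theorem g2q00_1_ok : g2q00_1.all (fun b => b.chk (mkq nc2 false false)) = true := by
  decide +kernel

/-- boxes -/
def g2q01_0 : List QB := [⟨16, 32768, 32768, 32768⟩, ⟨23, 4194304, 12582912, 4194304⟩]

set_option maxRecDepth 100000 in
theorem g2q01_0_ok : g2q01_0.all (fun b => b.chk (mkq nc2 false true)) = true := by
  decide +kernel

/-- boxes -/
def g2q01_1 : List QB := [⟨18, 917504, 131072, 131072⟩, ⟨19, 1835008, 786432, 262144⟩]

set_option maxRecDepth 100000 in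
theorem g2q01_1_ok : g2q01_1.all (fun b => b.chk (mkq nc2 false true)) = true := by
  decide +kernel

/-- boxes -/
def g2q01_2 : List QB := [⟨19, 1310720, 262144, 262144⟩, ⟨22, 6291456, 2097152, 2097152⟩, ⟨22, 2097152, 6291456, 2097152⟩, ⟨16, 98304, 98304, 32768⟩]

set_option maxRecDepth 100000 in
theorem g2q01_2_ok : g2q01_2.all (fun b => b.chk (mkq nc2 false true)) = true := by
  decide +kernel

/-- boxes -/
def g2q01_3 : List QB := [⟨18, 655360, 131072, 131072⟩, ⟨21, 1048576, 3145728, 1048576⟩]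

set_option maxRecDepth 100000 in
theorem g2q01_3_ok : g2q01_3.all (fun b => b.chk (mkq nc2 false true)) = true := by
  decide +kernel

/-- boxes -/
def g2q01_4 : List QB := [⟨18, 393216, 131072, 131072⟩, ⟨19, 262144, 786432, 262144⟩, ⟨18, 393216, 393216, 131072⟩]

set_option maxRecDepth 100000 in
theorem g2q01_4_ok : g2q01_4.all (fun b => b.chk (mkq nc2 false true)) = true := by
  decide +kernel

end Pool.Agent.Run7.h214.D6
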