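import Pool.Agent.Run7.h214.QSplit

set_option autoImplicit false

/-!
# Data of a certificate
-/

namespace Pool.Agent.Run7.h214.D6

open Pool.Agent.TH428.RM

/-- data of the certificate -/
def nc3 : NC :=
  ⟨10000000000000000, 1024, 1000, 16384, 9997880124840742, 6722643980640258, 4424281158237418, 1, 1000000000, 1094455170, 1559442950, 220, 280,
  [(5679821390815287, 1, 1), (20201328, 2, 0), (915478023285610, 1, 2), (889577255347652, 2, 1), (23588876029323, 1, 3), (591101313, 2, 2), (19488748319074, 3, 1), (2195958640, 0, 5), (91722838154, 1, 4), (417536755056, 2, 3), (453097013503, 3, 2), (128053878769, 4, 1), (6594625041, 5, 0)]⟩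

theorem nc3_ok : nc3.ok = true := by decide +kernel

end Pool.Agent.Run7.h214.D6
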