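import Pool.Agent.Run7.h214.QSplit

set_option autoImplicit false

/-!
# Data of a certificate
-/

namespace Pool.Agent.Run7.h214.D6

open Pool.Agent.TH428.RM

/-- data of the certificate -/
def nc4 : NC :=
  ⟨10000000000000000, 1024, 1000, 16384, 9997740137580286, 5966519767062538, 5966519645023300, 1, 1000000000, 1172631210, 1172631220, 320, 320,
  [(6842969343675812, 1, 1), (1263655509533667, 1, 2), (1263933071443887, 2, 1), (34355705870621, 1, 3), (34354892393029, 3, 1), (4009932196, 0, 5), (134272289675, 1, 4), (562508519529, 2, 3), (562473936921, 3, 2), (134240715423, 4, 1), (4007148170, 5, 0)]⟩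

theorem nc4_ok : nc4.ok = true := by decide +kernel

end Pool.Agent.Run7.h214.D6
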