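import Pool.Agent.Run7.h214.D6.N4D

set_option autoImplicit false

/-!
# Parts of a certificate, checked by the kernel
-/

namespace Pool.Agent.Run7.h214.D6

open Pool.Agent.TH428.RM

/-- boxes -/
def g4q00_0 : List QB := [⟨25, 16777216, 16777216, 16777216⟩]

set_option maxRecDepth 100000 in
theorem g4q00_0_ok : g4q00_0.all (fun b => b.chk (mkq nc4 false false)) = true := by
  decide +kernel

/-- boxes -/
def g4q01_0 : List QB := [⟨17, 65536, 1114112, 65536⟩, ⟨16, 1802240, 1146880, 32768⟩]

set_option maxRecDepth 100000 in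
theorem g4q01_0_ok : g4q01_0.all (fun b => b.chk (mkq nc4 false true)) = true := by
  decide +kernel

/-- boxes -/
def g4q01_1 : List QB := [⟨14, 8192, 8192, 8192⟩, ⟨21, 3145728, 1048576, 1048576⟩]

set_option maxRecDepth 100000 in
theorem g4q01_1_ok : g4q01_1.all (fun b => b.chk (mkq nc4 false true)) = true := by
  decide +kernel

/-- boxes -/
def g4q01_2 : List QB := [⟨16, 1802240, 1081344, 32768⟩, ⟨16, 1736704, 1081344, 32768⟩, ⟨18, 131072, 393216, 131072⟩, ⟨17, 196608, 1114112, 65536⟩]

set_option maxRecDepth 100000 in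
theorem g4q01_2_ok : g4q01_2.all (fun b => b.chk (mkq nc4 false true)) = true := by
  decide +kernel

/-- boxes -/
def g4q01_3 : List QB := [⟨19, 262144, 786432, 262144⟩, ⟨15, 16384, 49152, 16384⟩, ⟨21, 3145728, 3145728, 1048576⟩, ⟨21, 1048576, 3145728, 1048576⟩, ⟨18, 131072, 1441792, 131072⟩]

set_option maxRecDepth 100000 in
theorem g4q01_3_ok : g4q01_3.all (fun b => b.chk (mkq nc4 false true)) = true := by
  decide +kernel

/-- boxes -/
def g4q01_4 : List QB := [⟨20, 1572864, 524288, 524288⟩, ⟨18, 1966080, 1179648, 131072⟩]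

set_option maxRecDepth 100000 in
theorem g4q01_4_ok : g4q01_4.all (fun b => b.chk (mkq nc4 false true)) = true := by
  decide +kernel

/-- boxes -/
def g4q01_5 : List QB := [⟨14, 8192, 24576, 8192⟩, ⟨19, 786432, 262144, 262144⟩, ⟨19, 786432, 786432, 262144⟩, ⟨17, 65536, 196608, 65536⟩, ⟨16, 32768, 98304, 32768⟩, ⟨18, 393216, 131072, 131072⟩, ⟨19, 1310720, 1310720, 262144⟩]

set_option maxRecDepth 100000 in
theorem g4q01_5_ok : g4q01_5.all (fun b => b.chk (mkq nc4 false true)) = true := by
  decide +kernel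

end Pool.Agent.Run7.h214.D6
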