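import Pool.Agent.Run7.h214.QSplit

set_option autoImplicit false

/-!
# Data of a certificate
-/

namespace Pool.Agent.Run7.h214.D6

open Pool.Agent.TH428.RM

/-- data of the certificate -/
def nc5 : NC :=
  ⟨10000000000000000, 1024, 1000, 16384, 9996688938323854, 6875491540310029, 3639681413068979, 1, 1000000000, 1085251600, 2014362670, 160, 240,
  [(4567107322580995, 1, 1), (36386998967, 2, 0), (26783873971469, 0, 3), (551303515810972, 1, 2), (592680537350511, 2, 1), (7601835197, 3, 0), (51147280492478, 1, 3), (27708672445, 2, 2), (22119293106699, 3, 1), (681994182, 4, 0), (199900385181, 0, 5), (1397899635223, 1, 4), (3012499686513, 2, 3), (2471800688255, 3, 2), (761702152160, 4, 1), (71020283063, 5, 0)]⟩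

theorem nc5_ok : nc5.ok = true := by decide +kernel

end Pool.Agent.Run7.h214.D6
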