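import Pool.Agent.Run7.h214.D6.Tab

set_option autoImplicit false

/-!
# Rows, checked by the kernel
-/

namespace Pool.Agent.Run7.h214.D6

open Pool.Agent.TH428.RM TH502.RM

/-- row 35 -/
def rw35 : MRow :=
  ⟨(78468755, 2218799338), (76043494, 2248429679), (80900177, 2190049728), false, 81850593, 84572348, 891260409, [
    .ch ⟨1000000000, ⟨891260408, 115118630, 2218799320⟩, ⟨0, 0, 0⟩, [⟨84572349, true, 160, [126921987868195]⟩]⟩]⟩

/-- row 36 -/
def rw36 : MRow :=
  ⟨(80900177, 2190049728), (78468755, 2218799338), (83319145, 2162347147), false, 84572347, 87319229, 888088816, [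
    .ch ⟨1000000000, ⟨888088815, 118683525, 2190049714⟩, ⟨0, 0, 0⟩, [⟨87319230, true, 162, [129130902603812]⟩]⟩]⟩

/-- row 37 -/
def rw37 : MRow :=
  ⟨(83319145, 2162347147), (80900177, 2190049728), (85737389, 2135508488), false, 87319228, 90103012, 884945246, [
    .ch ⟨1000000000, ⟨884945245, 122229506, 2162347134⟩, ⟨0, 0, 0⟩, [⟨90103013, true, 164, [133328899164709]⟩]⟩]⟩

/-- row 38 -/
def rw38 : MRow :=
  ⟨(85737389, 2135508488), (83319145, 2162347147), (88140362, 2109642536), false, 90103011, 92901008, 881815520, [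
    .ch ⟨1000000000, ⟨881815519, 125772407, 2135508478⟩, ⟨0, 0, 0⟩, [⟨92901009, true, 166, [136344414473254]⟩]⟩]⟩

/-- row 39 -/
def rw39 : MRow :=
  ⟨(88140362, 2109642536), (85737389, 2135508488), (90859768, 2081338303), false, 92901007, 96077714, 878718687, [
    .ch ⟨1000000000, ⟨878718686, 129290472, 2109642523⟩, ⟨0, 0, 0⟩, [⟨96077715, true, 166, [144820454313511]⟩]⟩]⟩

/-- rows of this file -/
def rws7 : List MRow := [rw35, rw36, rw37, rw38, rw39]

set_option maxRecDepth 100000 in
theorem rws7_ok : rws7.all (fun r => mrowchk mT aT 8 dcs AllL r) = true := by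
  decide +kernel

end Pool.Agent.Run7.h214.D6
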